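import Mathlib

set_option autoImplicit false

namespace Pool.Agent.Lib.MP_fc0bf6_an

open Filter Topology

/-- the infinite product `∏ (1 + c_k w) ^ n_k` -/
noncomputable def IP (c : ℕ → ℝ) (n : ℕ → ℕ) (w : ℂ) : ℂ := ∏' k, (1 + w * (c k : ℂ)) ^ (n k)

theorem norm_pow_sub_one_le (x : ℂ) (n : ℕ) :
    ‖(1 + x) ^ n - 1‖ ≤ (n * ‖x‖) * Real.exp (n * ‖x‖) := by
  have h := Finset.norm_prod_one_add_sub_one_le (Finset.range n) (fun _ => x)
  simp only [Finset.prod_const, Finset.card_range, Finset.sum_const, nsmul_eq_mul] at h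
  refine h.trans ?_
  set y : ℝ := n * ‖x‖
  have h1 : 1 - y ≤ Real.exp (-y) := by
    have := Real.add_one_le_exp (-y)
    linarith
  have h2 : (1 - y) * Real.exp y ≤ Real.exp (-y) * Real.exp y :=
    mul_le_mul_of_nonneg_right h1 (Real.exp_pos _).le
  rw [← Real.exp_add, neg_add_cancel, Real.exp_zero] at h2
  linarith

section

variable {c : ℕ → ℝ} {n : ℕ → ℕ}

theorem norm_term_le (hc : ∀ k, 0 ≤ c k) (hs : Summable fun k => (n k : ℝ) * c k)
    {ρ : ℝ} {w : ℂ} (hw : ‖w‖ ≤ ρ) (k : ℕ) :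
    ‖(1 + w * (c k : ℂ)) ^ (n k) - 1‖ ≤
      ((n k : ℝ) * c k) * (ρ * Real.exp ((∑' j, (n j : ℝ) * c j) * ρ)) := by
  have hρ : 0 ≤ ρ := (norm_nonneg _).trans hw
  refine (norm_pow_sub_one_le _ _).trans ?_
  have h1 : ‖w * (c k : ℂ)‖ ≤ c k * ρ := by
    rw [norm_mul, Complex.norm_real, Real.norm_of_nonneg (hc k), mul_comm]
    exact mul_le_mul_of_nonneg_left hw (hc k)
  have h2 : (n k : ℝ) * ‖w * (c k : ℂ)‖ ≤ (n k : ℝ) * c k * ρ := by
    rw [mul_assoc]
    exact mul_le_mul_of_nonneg_left h1 (Nat.cast_nonneg _)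
  have h3 : (n k : ℝ) * c k ≤ ∑' j, (n j : ℝ) * c j :=
    hs.le_tsum k (fun j _ => mul_nonneg (Nat.cast_nonneg _) (hc j))
  have h4 : (n k : ℝ) * ‖w * (c k : ℂ)‖ ≤ (∑' j, (n j : ℝ) * c j) * ρ :=
    h2.trans (mul_le_mul_of_nonneg_right h3 hρ)
  rw [← mul_assoc]
  apply mul_le_mul h2 (Real.exp_le_exp.2 h4) (Real.exp_pos _).le
  exact mul_nonneg (mul_nonneg (Nat.cast_nonneg _) (hc k)) hρ

theorem multipliable_IP (hc : ∀ k, 0 ≤ c k) (hs : Summable fun k => (n k : ℝ) * c k) (w : ℂ) :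
    Multipliable fun k => (1 + w * (c k : ℂ)) ^ (n k) := by
  have h : Multipliable fun k => 1 + ((1 + w * (c k : ℂ)) ^ (n k) - 1) := by
    apply multipliable_one_add_of_summable
    refine Summable.of_nonneg_of_le (fun k => norm_nonneg _)
      (fun k => norm_term_le hc hs (le_refl ‖w‖) k) ?_
    exact hs.mul_right _
  simpa using h

theorem tendsto_IP (hc : ∀ k, 0 ≤ c k) (hs : Summable fun k => (n k : ℝ) * c k) (w : ℂ) :
    Tendsto (fun N => ∏ k ∈ Finset.range N, (1 + w * (c k : ℂ)) ^ (n k)) atTop (𝓝 (IP c n w)) :=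
  (multipliable_IP hc hs w).hasProd.tendsto_prod_nat

theorem differentiable_IP (hc : ∀ k, 0 ≤ c k) (hs : Summable fun k => (n k : ℝ) * c k) :
    Differentiable ℂ (IP c n) := by
  have key : ∀ ρ : ℝ, DifferentiableOn ℂ (IP c n) (Metric.ball (0 : ℂ) ρ) := by
    intro ρ
    have h1 : Summable fun k => ((n k : ℝ) * c k) * (ρ * Real.exp ((∑' j, (n j : ℝ) * c j) * ρ)) :=
      hs.mul_right _
    have h2 := h1.hasProdLocallyUniformlyOn_nat_one_add (K := Metric.ball (0 : ℂ) ρ)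
      (f := fun k (w : ℂ) => (1 + w * (c k : ℂ)) ^ (n k) - 1) Metric.isOpen_ball
      (Eventually.of_forall fun k w hw => norm_term_le hc hs
        (by simpa using (Metric.mem_ball.1 hw).le) k)
      (fun k => by fun_prop)
    have h3 := h2.differentiableOn (Eventually.of_forall fun s => by
      simpa [Finset.prod_fn] using DifferentiableOn.finsetProd (fun _ _ => by fun_prop))
      Metric.isOpen_ball
    refine h3.congr ?_
    intro w _
    simp [IP]
  intro w
  exact (key (‖w‖ + 1)).differentiableAt (Metric.isOpen_ball.mem_nhds (by simp))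

theorem IP_zero : IP c n 0 = 1 := by
  simp [IP]

/-- if the infinite product is nonzero then all factors are nonzero -/
theorem factor_ne_zero (hc : ∀ k, 0 ≤ c k) (hs : Summable fun k => (n k : ℝ) * c k)
    (hn : ∀ k, n k ≠ 0) {w : ℂ} (hw : IP c n w ≠ 0) (k : ℕ) : 1 + w * (c k : ℂ) ≠ 0 := by
  intro h
  apply hw
  have h1 : ∀ᶠ N in atTop, (∏ k ∈ Finset.range N, (1 + w * (c k : ℂ)) ^ (n k)) = 0 := by
    filter_upwards [eventually_gt_atTop k] with N hN
    apply Finset.prod_eq_zero (Finset.mem_range.2 hN)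
    rw [h, zero_pow (hn k)]
  exact tendsto_nhds_unique (tendsto_IP hc hs w)
    (tendsto_const_nhds.congr' (h1.mono fun _ h => h.symm))

end

end Pool.Agent.Lib.MP_fc0bf6_an
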