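import Mathlib

set_option autoImplicit false

namespace Pool.Agent.Lib.MP_fc0bf6_an

/-- the basic rational function -/
noncomputable def RR (w : ℂ) : ℂ := (1 + w) ^ 2 / (1 + w ^ 2)

theorem normSq_one_add (w : ℂ) : ‖1 + w‖ ^ 2 = 1 + 2 * w.re + ‖w‖ ^ 2 := by
  rw [Complex.sq_norm, Complex.sq_norm, Complex.normSq_apply, Complex.normSq_apply]
  simp
  ring

theorem normSq_one_add_sq (w : ℂ) :
    ‖1 + w ^ 2‖ ^ 2 = (1 - ‖w‖ ^ 2) ^ 2 + 4 * w.re ^ 2 := by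
  rw [Complex.sq_norm, Complex.sq_norm, Complex.normSq_apply, Complex.normSq_apply]
  simp [pow_two]
  ring

theorem sq_norm_RR (w : ℂ) :
    ‖RR w‖ ^ 2 = (1 + 2 * w.re + ‖w‖ ^ 2) ^ 2 / ((1 - ‖w‖ ^ 2) ^ 2 + 4 * w.re ^ 2) := by
  rw [RR, norm_div, norm_pow, div_pow, normSq_one_add_sq, ← normSq_one_add]

theorem norm_RR_neg (t : ℝ) (_ht : 0 ≤ t) : ‖RR (-(t : ℂ))‖ = 1 - 2 * t / (1 + t ^ 2) := by
  have h1 : RR (-(t : ℂ)) = (((1 - t) ^ 2 / (1 + t ^ 2) : ℝ) : ℂ) := by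
    rw [RR]; push_cast; ring
  have h2 : (0 : ℝ) < 1 + t ^ 2 := by positivity
  rw [h1, Complex.norm_real, Real.norm_of_nonneg (by positivity)]
  field_simp
  ring

theorem re_sq_le (w : ℂ) : w.re ^ 2 ≤ ‖w‖ ^ 2 := by
  rw [Complex.sq_norm, Complex.normSq_apply]
  nlinarith [mul_self_nonneg w.im]

/-- first bound -/
theorem sq_norm_RR_mul_le (w : ℂ) (hw : 1 + w ^ 2 ≠ 0) (x : ℝ)
    (hx : x = 2 * ‖w‖ / (1 + ‖w‖ ^ 2)) : ‖RR w‖ ^ 2 * (1 - x ^ 2) ≤ 2 - x ^ 2 := by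
  have hD : 0 < (1 - ‖w‖ ^ 2) ^ 2 + 4 * w.re ^ 2 := by
    rw [← normSq_one_add_sq]
    have := norm_pos_iff.2 hw
    positivity
  rw [sq_norm_RR, div_mul_eq_mul_div, div_le_iff₀ hD]
  set t := ‖w‖
  set a := w.re
  have hs : (0 : ℝ) < 1 + t ^ 2 := by positivity
  have e1 : x ^ 2 * (1 + t ^ 2) ^ 2 = 4 * t ^ 2 := by
    rw [hx]; field_simp; ring
  have hs2 : (0 : ℝ) < (1 + t ^ 2) ^ 2 := by positivity
  -- multiply by s^2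
  have key : ((2 - x ^ 2) * ((1 - t ^ 2) ^ 2 + 4 * a ^ 2)
      - (1 + 2 * a + t ^ 2) ^ 2 * (1 - x ^ 2)) * (1 + t ^ 2) ^ 2 =
      ((1 - t ^ 2) ^ 2 - 2 * a * (1 + t ^ 2)) ^ 2 := by
    have e2 : x ^ 2 = 4 * t ^ 2 / (1 + t ^ 2) ^ 2 := by
      rw [eq_div_iff hs2.ne']; exact e1
    rw [e2]
    field_simp
    ring
  have h0 : 0 ≤ ((2 - x ^ 2) * ((1 - t ^ 2) ^ 2 + 4 * a ^ 2)
      - (1 + 2 * a + t ^ 2) ^ 2 * (1 - x ^ 2)) * (1 + t ^ 2) ^ 2 := by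
    rw [key]; positivity
  have h1 := nonneg_of_mul_nonneg_left h0 hs2
  linarith

/-- second bound, for small `x` -/
theorem sq_norm_RR_le (w : ℂ) (hw : 1 + w ^ 2 ≠ 0) (x : ℝ)
    (hx : x = 2 * ‖w‖ / (1 + ‖w‖ ^ 2)) (hx1 : x ≤ 3 / 5) : ‖RR w‖ ^ 2 ≤ (1 + x) ^ 2 := by
  have hD : 0 < (1 - ‖w‖ ^ 2) ^ 2 + 4 * w.re ^ 2 := by
    rw [← normSq_one_add_sq]
    have := norm_pos_iff.2 hw
    positivity
  rw [sq_norm_RR, div_le_iff₀ hD]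
  have hre := re_sq_le w
  have hre2 : w.re ≤ ‖w‖ := Complex.re_le_norm w
  set t := ‖w‖
  have ht : 0 ≤ t := norm_nonneg w
  set a := w.re
  have hs : (0 : ℝ) < 1 + t ^ 2 := by positivity
  have hs2 : (0 : ℝ) < (1 + t ^ 2) ^ 2 := by positivity
  have hx0 : 0 ≤ x := by rw [hx]; positivity
  -- u = 2 a / s
  obtain ⟨u, hu⟩ : ∃ u : ℝ, u = 2 * a / (1 + t ^ 2) := ⟨_, rfl⟩
  have hux : u ≤ x := by
    rw [hu, hx]; gcongr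
  have e1 : 2 * a = u * (1 + t ^ 2) := by rw [hu]; field_simp
  have e2 : 2 * t = x * (1 + t ^ 2) := by rw [hx]; field_simp
  have e3 : (1 - t ^ 2) ^ 2 + 4 * a ^ 2 = (1 + t ^ 2) ^ 2 * (1 - x ^ 2 + u ^ 2) := by
    have : 4 * a ^ 2 = (u * (1 + t ^ 2)) ^ 2 := by rw [← e1]; ring
    have h4 : 4 * t ^ 2 = (x * (1 + t ^ 2)) ^ 2 := by rw [← e2]; ring
    rw [this]
    linear_combination -h4
  have e4 : (1 + 2 * a + t ^ 2) ^ 2 = (1 + t ^ 2) ^ 2 * (1 + u) ^ 2 := by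
    rw [e1]; ring
  rw [e3, e4]
  have key : (1 + u) ^ 2 ≤ (1 + x) ^ 2 * (1 - x ^ 2 + u ^ 2) := by
    have f1 : (1 + x) ^ 2 * (1 - x ^ 2 + u ^ 2) - (1 + u) ^ 2
        = (x - u) * (2 - ((1 + x) ^ 2 - 1) * (u + x)) := by ring
    have f2 : ((1 + x) ^ 2 - 1) * (u + x) ≤ ((1 + x) ^ 2 - 1) * (2 * x) := by
      apply mul_le_mul_of_nonneg_left (by linarith)
      nlinarith
    have f3 : ((1 + x) ^ 2 - 1) * (2 * x) ≤ 2 := by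
      have : ((1 + x) ^ 2 - 1) * (2 * x) = 2 * x ^ 2 * (2 + x) := by ring
      rw [this]
      have h5 : x ^ 2 ≤ 9 / 25 := by nlinarith
      nlinarith [sq_nonneg x]
    have f4 : 0 ≤ (x - u) * (2 - ((1 + x) ^ 2 - 1) * (u + x)) :=
      mul_nonneg (by linarith) (by linarith)
    linarith
  calc (1 + t ^ 2) ^ 2 * (1 + u) ^ 2 ≤ (1 + t ^ 2) ^ 2 * ((1 + x) ^ 2 * (1 - x ^ 2 + u ^ 2)) :=
        mul_le_mul_of_nonneg_left key hs2.le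
    _ = (1 + x) ^ 2 * ((1 + t ^ 2) ^ 2 * (1 - x ^ 2 + u ^ 2)) := by ring

theorem x_le_one (t : ℝ) : 2 * t / (1 + t ^ 2) ≤ 1 := by
  rw [div_le_one (by positivity)]
  nlinarith [sq_nonneg (t - 1)]

/-- the combined quantity -/
theorem E_large (w : ℂ) (hw : 1 + w ^ 2 ≠ 0) (x : ℝ)
    (hx : x = 2 * ‖w‖ / (1 + ‖w‖ ^ 2)) :
    ‖RR w‖ ^ 6 * (1 - x) ^ 5 * (1 + x) ^ 3 ≤ (2 - x ^ 2) ^ 3 * (1 - x) ^ 2 := by
  have h := sq_norm_RR_mul_le w hw x hx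
  have hx1 : x ≤ 1 := hx ▸ x_le_one _
  have hx0 : 0 ≤ x := by rw [hx]; positivity
  have h0 : 0 ≤ ‖RR w‖ ^ 2 * (1 - x ^ 2) := by
    apply mul_nonneg (by positivity); nlinarith
  have h3 := pow_le_pow_left₀ h0 h 3
  have : ‖RR w‖ ^ 6 * (1 - x) ^ 5 * (1 + x) ^ 3
      = (‖RR w‖ ^ 2 * (1 - x ^ 2)) ^ 3 * (1 - x) ^ 2 := by ring
  rw [this]
  exact mul_le_mul_of_nonneg_right h3 (by positivity)

theorem E_three (w : ℂ) (hw : 1 + w ^ 2 ≠ 0) (x : ℝ)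
    (hx : x = 2 * ‖w‖ / (1 + ‖w‖ ^ 2)) (hx3 : 3 / 4 ≤ x) :
    ‖RR w‖ ^ 6 * (1 - x) ^ 5 ≤ 1 / 20 := by
  have h := E_large w hw x hx
  have hx1 : x ≤ 1 := hx ▸ x_le_one _
  have h1 : (1 - x) ^ 2 ≤ (1 / 4 : ℝ) ^ 2 := pow_le_pow_left₀ (by linarith) (by linarith) 2
  have h2 : (2 - x ^ 2) ^ 3 ≤ (23 / 16 : ℝ) ^ 3 :=
    pow_le_pow_left₀ (by nlinarith) (by nlinarith) 3
  have h3 : (7 / 4 : ℝ) ^ 3 ≤ (1 + x) ^ 3 := pow_le_pow_left₀ (by norm_num) (by linarith) 3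
  have h4 : (2 - x ^ 2) ^ 3 * (1 - x) ^ 2 ≤ (23 / 16 : ℝ) ^ 3 * (1 / 4 : ℝ) ^ 2 :=
    mul_le_mul h2 h1 (by positivity) (by positivity)
  have hE : 0 ≤ ‖RR w‖ ^ 6 * (1 - x) ^ 5 := by
    apply mul_nonneg (by positivity)
    exact pow_nonneg (by linarith) 5
  have h5 : ‖RR w‖ ^ 6 * (1 - x) ^ 5 * (7 / 4 : ℝ) ^ 3 ≤ (23 / 16 : ℝ) ^ 3 * (1 / 4 : ℝ) ^ 2 :=
    (mul_le_mul_of_nonneg_left h3 hE).trans (h.trans h4)
  norm_num at h5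
  linarith

theorem E_le_one (w : ℂ) (hw : 1 + w ^ 2 ≠ 0) (x : ℝ)
    (hx : x = 2 * ‖w‖ / (1 + ‖w‖ ^ 2)) (hx3 : 3 / 5 ≤ x) :
    ‖RR w‖ ^ 6 * (1 - x) ^ 5 ≤ 1 := by
  have h := E_large w hw x hx
  have hx1 : x ≤ 1 := hx ▸ x_le_one _
  have h1 : (1 - x) ^ 2 ≤ (2 / 5 : ℝ) ^ 2 := pow_le_pow_left₀ (by linarith) (by linarith) 2
  have h2 : (2 - x ^ 2) ^ 3 ≤ (41 / 25 : ℝ) ^ 3 :=
    pow_le_pow_left₀ (by nlinarith) (by nlinarith) 3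
  have h3 : (8 / 5 : ℝ) ^ 3 ≤ (1 + x) ^ 3 := pow_le_pow_left₀ (by norm_num) (by linarith) 3
  have h4 : (2 - x ^ 2) ^ 3 * (1 - x) ^ 2 ≤ (41 / 25 : ℝ) ^ 3 * (2 / 5 : ℝ) ^ 2 :=
    mul_le_mul h2 h1 (by positivity) (by positivity)
  have hE : 0 ≤ ‖RR w‖ ^ 6 * (1 - x) ^ 5 := by
    apply mul_nonneg (by positivity)
    exact pow_nonneg (by linarith) 5
  have h5 : ‖RR w‖ ^ 6 * (1 - x) ^ 5 * (8 / 5 : ℝ) ^ 3 ≤ (41 / 25 : ℝ) ^ 3 * (2 / 5 : ℝ) ^ 2 :=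
    (mul_le_mul_of_nonneg_left h3 hE).trans (h.trans h4)
  norm_num at h5
  linarith

theorem E_small (w : ℂ) (hw : 1 + w ^ 2 ≠ 0) (x : ℝ)
    (hx : x = 2 * ‖w‖ / (1 + ‖w‖ ^ 2)) (hx3 : x ≤ 3 / 5) :
    ‖RR w‖ ^ 6 * (1 - x) ^ 5 ≤ Real.exp (x - 5 * x ^ 2) := by
  have h := sq_norm_RR_le w hw x hx hx3
  have hx0 : 0 ≤ x := by rw [hx]; positivity
  have h3 := pow_le_pow_left₀ (by positivity) h 3
  have e1 : ‖RR w‖ ^ 6 = (‖RR w‖ ^ 2) ^ 3 := by ring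
  rw [e1]
  have h4 : (‖RR w‖ ^ 2) ^ 3 * (1 - x) ^ 5 ≤ ((1 + x) ^ 2) ^ 3 * (1 - x) ^ 5 :=
    mul_le_mul_of_nonneg_right h3 (pow_nonneg (by linarith) 5)
  refine h4.trans ?_
  have e2 : ((1 + x) ^ 2) ^ 3 * (1 - x) ^ 5 = (1 + x) * (1 - x ^ 2) ^ 5 := by ring
  rw [e2]
  have h5 : 1 + x ≤ Real.exp x := by
    have := Real.add_one_le_exp x; linarith
  have h6 : 1 - x ^ 2 ≤ Real.exp (-(x ^ 2)) := by
    have := Real.add_one_le_exp (-(x ^ 2)); linarith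
  have h7 : (1 - x ^ 2) ^ 5 ≤ (Real.exp (-(x ^ 2))) ^ 5 :=
    pow_le_pow_left₀ (by nlinarith) h6 5
  rw [← Real.exp_nat_mul] at h7
  calc (1 + x) * (1 - x ^ 2) ^ 5 ≤ Real.exp x * Real.exp ((5 : ℕ) * -(x ^ 2)) :=
        mul_le_mul h5 h7 (pow_nonneg (by nlinarith) 5) (Real.exp_pos _).le
    _ = Real.exp (x - 5 * x ^ 2) := by
        rw [← Real.exp_add]; congr 1; push_cast; ring

/-- general bound of each factor -/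
theorem E_general (w : ℂ) (hw : 1 + w ^ 2 ≠ 0) :
    ‖RR w‖ ^ 6 * ‖RR (-(‖w‖ : ℂ))‖ ^ 5 ≤ Real.exp (min (1 / 20) (2 * ‖w‖)) := by
  rw [norm_RR_neg _ (norm_nonneg w)]
  obtain ⟨x, hx⟩ : ∃ x : ℝ, x = 2 * ‖w‖ / (1 + ‖w‖ ^ 2) := ⟨_, rfl⟩
  rw [← hx]
  have hx0 : 0 ≤ x := by rw [hx]; positivity
  have hxt : x ≤ 2 * ‖w‖ := by
    rw [hx]
    apply div_le_self (by positivity)
    nlinarith [sq_nonneg ‖w‖]
  rcases le_total x (3 / 5) with h | h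
  · refine (E_small w hw x hx h).trans (Real.exp_le_exp.2 (le_min ?_ ?_))
    · nlinarith [sq_nonneg (x - 1 / 10)]
    · nlinarith [sq_nonneg x]
  · refine (E_le_one w hw x hx h).trans (Real.one_le_exp (le_min (by norm_num) ?_))
    positivity

/-- bound of the distinguished factor -/
theorem E_special (w : ℂ) (hw : 1 + w ^ 2 ≠ 0) (h1 : 1 / (11 / 5) ≤ ‖w‖) (h2 : ‖w‖ ≤ 11 / 5) :
    ‖RR w‖ ^ 6 * ‖RR (-(‖w‖ : ℂ))‖ ^ 5 ≤ Real.exp (-(299 / 100)) := by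
  rw [norm_RR_neg _ (norm_nonneg w)]
  have hx : 3 / 4 ≤ 2 * ‖w‖ / (1 + ‖w‖ ^ 2) := by
    rw [le_div_iff₀ (by positivity)]
    nlinarith
  refine (E_three w hw _ rfl hx).trans ?_
  rw [Real.exp_neg, one_div]
  apply inv_anti₀ (Real.exp_pos _)
  have h4 : Real.exp (299 / 100) ≤ 20 := by
    have h5 : Real.exp (299 / 100) * Real.exp (1 / 100) = Real.exp 1 ^ 3 := by
      rw [← Real.exp_add, ← Real.exp_nat_mul]; norm_num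
    have h6 : 1 + 1 / 100 ≤ Real.exp (1 / 100) := by
      have := Real.add_one_le_exp (1 / 100 : ℝ); linarith
    have h7 : Real.exp 1 < 2.7182818286 := Real.exp_one_lt_d9
    have h8 : Real.exp 1 ^ 3 ≤ 2.7182818286 ^ 3 := by
      apply pow_le_pow_left₀ (Real.exp_pos _).le h7.le
    have h9 : Real.exp (299 / 100) * (1 + 1 / 100) ≤ 2.7182818286 ^ 3 :=
      (mul_le_mul_of_nonneg_left h6 (Real.exp_pos _).le).trans (h5.trans_le h8)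
    norm_num at h9 ⊢
    linarith
  exact h4

/-- lower bound in the right half plane -/
theorem one_le_RR (w : ℂ) (hw : 1 + w ^ 2 ≠ 0) (hre : 0 ≤ w.re) :
    1 + (2 * ‖w‖ / (1 + ‖w‖ ^ 2)) ^ 2 ≤ ‖RR w‖ ^ 2 := by
  have hD : 0 < (1 - ‖w‖ ^ 2) ^ 2 + 4 * w.re ^ 2 := by
    rw [← normSq_one_add_sq]
    have := norm_pos_iff.2 hw
    positivity
  rw [sq_norm_RR, le_div_iff₀ hD]
  have hre2 := re_sq_le w
  set t := ‖w‖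
  set a := w.re
  have hs : (0 : ℝ) < 1 + t ^ 2 := by positivity
  have hs2 : (0 : ℝ) < (1 + t ^ 2) ^ 2 := by positivity
  have h1 : (1 - t ^ 2) ^ 2 + 4 * a ^ 2 ≤ (1 + t ^ 2) ^ 2 := by nlinarith
  have h2 : (2 * t / (1 + t ^ 2)) ^ 2 * ((1 - t ^ 2) ^ 2 + 4 * a ^ 2) ≤ 4 * t ^ 2 := by
    rw [div_pow, div_mul_eq_mul_div, div_le_iff₀ hs2]
    nlinarith [sq_nonneg t]
  nlinarith [mul_nonneg hre hs.le]

end Pool.Agent.Lib.MP_fc0bf6_an
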