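import Mathlib
import Pool.Agent.Lib.MP_fc0bf6_an.InfProd
import Pool.Agent.Lib.MP_fc0bf6_an.Pointwise

set_option autoImplicit false

namespace Pool.Agent.Lib.MP_fc0bf6_an

open Filter Topology

section

variable (q : ℝ)

/-- numerator -/
noncomputable def GG (z : ℂ) : ℂ := IP (fun k => (q ^ k)⁻¹) (fun k => 2 ^ (k + 1)) (z ^ 2)

/-- denominator -/
noncomputable def HH (z : ℂ) : ℂ := IP (fun k => ((q ^ k)⁻¹) ^ 2) (fun k => 2 ^ k) (z ^ 4)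

/-- the counterexample -/
noncomputable def FF (z : ℂ) : ℂ := GG q z / HH q z

variable {q}

theorem summable1 (hq : 4 < q) : Summable fun k : ℕ => ((2 ^ (k + 1) : ℕ) : ℝ) * (q ^ k)⁻¹ := by
  have h : Summable fun k : ℕ => 2 * (2 / q) ^ k := by
    apply Summable.mul_left
    apply summable_geometric_of_lt_one (by positivity)
    rw [div_lt_one (by linarith)]
    linarith
  refine h.congr ?_
  intro k
  push_cast
  rw [div_pow, pow_succ]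
  ring

theorem summable2 (hq : 4 < q) : Summable fun k : ℕ => ((2 ^ k : ℕ) : ℝ) * ((q ^ k)⁻¹) ^ 2 := by
  have h : Summable fun k : ℕ => (2 / q ^ 2) ^ k := by
    apply summable_geometric_of_lt_one (by positivity)
    rw [div_lt_one (by positivity)]
    nlinarith
  refine h.congr ?_
  intro k
  push_cast
  rw [div_pow, ← pow_mul, inv_pow, ← pow_mul, mul_comm 2 k]
  ring

theorem nn1 (hq : 4 < q) (k : ℕ) : 0 ≤ (q ^ k)⁻¹ := by
  have : 0 < q := by linarith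
  positivity

theorem nn2 (q : ℝ) (k : ℕ) : 0 ≤ ((q ^ k)⁻¹) ^ 2 := sq_nonneg _

theorem differentiable_GG (hq : 4 < q) : Differentiable ℂ (GG q) :=
  (differentiable_IP (nn1 hq) (summable1 hq)).comp (by fun_prop)

theorem differentiable_HH (hq : 4 < q) : Differentiable ℂ (HH q) :=
  (differentiable_IP (nn2 q) (summable2 hq)).comp (by fun_prop)

theorem GG_zero : GG q 0 = 1 := by simp [GG, IP_zero]

theorem HH_zero : HH q 0 = 1 := by simp [HH, IP_zero]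

theorem factor_HH (hq : 4 < q) {z : ℂ} (hz : HH q z ≠ 0) (k : ℕ) :
    1 + (z ^ 2 * ((q ^ k)⁻¹ : ℝ)) ^ 2 ≠ 0 := by
  have h := factor_ne_zero (nn2 q) (summable2 hq) (fun k => by positivity) hz k
  intro h2
  apply h
  rw [← h2]
  push_cast
  ring

theorem tendsto_FF (hq : 4 < q) {z : ℂ} (hz : HH q z ≠ 0) :
    Tendsto (fun N => ∏ k ∈ Finset.range N, RR (z ^ 2 * ((q ^ k)⁻¹ : ℝ)) ^ (2 ^ k)) atTop
      (𝓝 (FF q z)) := by
  have h1 := tendsto_IP (nn1 hq) (summable1 hq) (z ^ 2)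
  have h2 := tendsto_IP (nn2 q) (summable2 hq) (z ^ 4)
  have h3 := h1.div h2 hz
  refine h3.congr ?_
  intro N
  simp only [Pi.div_apply]
  rw [← Finset.prod_div_distrib]
  apply Finset.prod_congr rfl
  intro k _
  rw [RR, div_pow, ← pow_mul, pow_succ 2 k, mul_comm (2 ^ k) 2]
  congr 2
  push_cast
  ring

/-- scale: `t_k = r^2 / q^k` -/
theorem norm_scaled (hq : 4 < q) (z : ℂ) (k : ℕ) :
    ‖z ^ 2 * (((q ^ k)⁻¹ : ℝ) : ℂ)‖ = ‖z‖ ^ 2 * (q ^ k)⁻¹ := by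
  rw [norm_mul, norm_pow, Complex.norm_real, Real.norm_of_nonneg (nn1 hq k)]

theorem tail_t (hq : 4 < q) {r : ℝ} {n : ℕ} (h2 : r ^ 2 < q ^ (n + 1)) (i : ℕ) :
    r ^ 2 * (q ^ (n + 1 + i))⁻¹ ≤ (1 / 4 : ℝ) ^ i := by
  have hq0 : 0 < q := by linarith
  rw [pow_add q (n + 1) i, mul_inv, ← mul_assoc]
  have h3 : r ^ 2 * (q ^ (n + 1))⁻¹ ≤ 1 := by
    rw [← div_eq_mul_inv, div_le_one (by positivity)]
    exact h2.le
  have h4 : (q ^ i)⁻¹ ≤ (1 / 4 : ℝ) ^ i := by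
    rw [one_div, inv_pow]
    apply inv_anti₀ (by positivity)
    exact pow_le_pow_left₀ (by norm_num) hq.le i
  calc r ^ 2 * (q ^ (n + 1))⁻¹ * (q ^ i)⁻¹ ≤ 1 * (1 / 4 : ℝ) ^ i :=
        mul_le_mul h3 h4 (by positivity) (by norm_num)
    _ = _ := one_mul _

theorem sum_bound (hq : 4 < q) {r : ℝ} {n : ℕ} (h2 : r ^ 2 < q ^ (n + 1)) (N : ℕ) :
    ∑ k ∈ Finset.range N, (2 : ℝ) ^ k * min (1 / 20) (2 * (r ^ 2 * (q ^ k)⁻¹))
      ≤ 9 / 5 * 2 ^ n := by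
  have hnn : ∀ k : ℕ, 0 ≤ (2 : ℝ) ^ k * min (1 / 20) (2 * (r ^ 2 * (q ^ k)⁻¹)) := by
    intro k
    apply mul_nonneg (by positivity)
    apply le_min (by norm_num)
    have := nn1 hq k
    positivity
  have hA : ∑ k ∈ Finset.range (n + 4), (2 : ℝ) ^ k * min (1 / 20) (2 * (r ^ 2 * (q ^ k)⁻¹))
      ≤ 4 / 5 * 2 ^ n := by
    calc ∑ k ∈ Finset.range (n + 4), (2 : ℝ) ^ k * min (1 / 20) (2 * (r ^ 2 * (q ^ k)⁻¹))
        ≤ ∑ k ∈ Finset.range (n + 4), (2 : ℝ) ^ k * (1 / 20) :=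
          Finset.sum_le_sum fun k _ => mul_le_mul_of_nonneg_left (min_le_left _ _) (by positivity)
      _ = (∑ k ∈ Finset.range (n + 4), (2 : ℝ) ^ k) * (1 / 20) := by rw [Finset.sum_mul]
      _ = ((2 : ℝ) ^ (n + 4) - 1) * (1 / 20) := by
          rw [geom_sum_eq (by norm_num)]; norm_num
      _ ≤ 4 / 5 * 2 ^ n := by rw [pow_add]; nlinarith
  have hB : ∀ M : ℕ, ∑ i ∈ Finset.range M, (2 : ℝ) ^ (n + 4 + i) *
      min (1 / 20) (2 * (r ^ 2 * (q ^ (n + 4 + i))⁻¹)) ≤ 2 ^ n * (1 - (1 / 2) ^ M) := by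
    intro M
    induction M with
    | zero => simp
    | succ M ih =>
      rw [Finset.sum_range_succ]
      have h3 : (2 : ℝ) ^ (n + 4 + M) * min (1 / 20) (2 * (r ^ 2 * (q ^ (n + 4 + M))⁻¹))
          ≤ 2 ^ n * (1 / 2 * (1 / 2) ^ M) := by
        calc (2 : ℝ) ^ (n + 4 + M) * min (1 / 20) (2 * (r ^ 2 * (q ^ (n + 4 + M))⁻¹))
            ≤ (2 : ℝ) ^ (n + 4 + M) * (2 * (r ^ 2 * (q ^ (n + 4 + M))⁻¹)) :=
              mul_le_mul_of_nonneg_left (min_le_right _ _) (by positivity)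
          _ ≤ (2 : ℝ) ^ (n + 4 + M) * (2 * (1 / 4) ^ (3 + M)) := by
              gcongr
              have := tail_t hq h2 (3 + M)
              have e : n + 1 + (3 + M) = n + 4 + M := by ring
              rwa [e] at this
          _ = 2 ^ n * (1 / 2 * ((2 : ℝ) * (1 / 4)) ^ M) := by
              rw [mul_pow, pow_add, pow_add, pow_add]; ring
          _ = 2 ^ n * (1 / 2 * (1 / 2) ^ M) := by norm_num
      calc _ ≤ 2 ^ n * (1 - (1 / 2) ^ M) + 2 ^ n * (1 / 2 * (1 / 2) ^ M) := add_le_add ih h3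
        _ = 2 ^ n * (1 - (1 / 2) ^ (M + 1)) := by rw [pow_succ]; ring
  rcases le_total N (n + 4) with h | h
  · calc _ ≤ ∑ k ∈ Finset.range (n + 4),
          (2 : ℝ) ^ k * min (1 / 20) (2 * (r ^ 2 * (q ^ k)⁻¹)) := by
          apply Finset.sum_le_sum_of_subset_of_nonneg
          · exact Finset.range_subset_range.2 h
          · intro k _ _; exact hnn k
      _ ≤ 4 / 5 * 2 ^ n := hA
      _ ≤ 9 / 5 * 2 ^ n := by gcongr; norm_num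
  · obtain ⟨M, rfl⟩ := Nat.exists_eq_add_of_le h
    rw [Finset.sum_range_add]
    have h4 : (2 : ℝ) ^ n * (1 - (1 / 2) ^ M) ≤ 2 ^ n := by
      have : (0 : ℝ) ≤ (1 / 2) ^ M := by positivity
      have h5 : (0 : ℝ) < 2 ^ n := by positivity
      nlinarith
    linarith [hB M]

/-- the main inequality -/
theorem main_ineq (hq : 4 < q) (hq2 : q ≤ 22 / 5) {z z' : ℂ} (hz : HH q z ≠ 0)
    (hz' : HH q z' ≠ 0) {n : ℕ} (h1 : q ^ n ≤ ‖z‖ ^ 2) (h2 : ‖z‖ ^ 2 < q ^ (n + 1))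
    (hzz : z' ^ 2 = -((‖z‖ : ℂ) ^ 2)) : ‖FF q z‖ ^ 6 * ‖FF q z'‖ ^ 5 ≤ 1 := by
  have hq0 : 0 < q := by linarith
  set r := ‖z‖ with hr
  have ht : ∀ k, ‖z ^ 2 * (((q ^ k)⁻¹ : ℝ) : ℂ)‖ = r ^ 2 * (q ^ k)⁻¹ := norm_scaled hq z
  have ht' : ∀ k, z' ^ 2 * (((q ^ k)⁻¹ : ℝ) : ℂ) = -((‖z ^ 2 * (((q ^ k)⁻¹ : ℝ) : ℂ)‖ : ℝ) : ℂ) := by
    intro k
    rw [ht, hzz]
    push_cast
    ring
  have hlim : Tendsto (fun N => ‖∏ k ∈ Finset.range N,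
      RR (z ^ 2 * ((q ^ k)⁻¹ : ℝ)) ^ (2 ^ k)‖ ^ 6 * ‖∏ k ∈ Finset.range N,
      RR (z' ^ 2 * ((q ^ k)⁻¹ : ℝ)) ^ (2 ^ k)‖ ^ 5) atTop
      (𝓝 (‖FF q z‖ ^ 6 * ‖FF q z'‖ ^ 5)) :=
    ((tendsto_FF hq hz).norm.pow 6).mul ((tendsto_FF hq hz').norm.pow 5)
  -- the special index
  obtain ⟨k0, hk0n, hk1, hk2⟩ : ∃ k0 : ℕ, n ≤ k0 ∧ 1 / (11 / 5) ≤ r ^ 2 * (q ^ k0)⁻¹ ∧
      r ^ 2 * (q ^ k0)⁻¹ ≤ 11 / 5 := by
    by_cases hc : r ^ 2 ≤ 11 / 5 * q ^ n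
    · refine ⟨n, le_refl n, ?_, ?_⟩
      · have h3 : 1 ≤ r ^ 2 * (q ^ n)⁻¹ := by
          rw [← div_eq_mul_inv, one_le_div (by positivity)]; exact h1
        linarith
      · rw [← div_eq_mul_inv, div_le_iff₀ (by positivity)]; exact hc
    · push Not at hc
      refine ⟨n + 1, Nat.le_succ n, ?_, ?_⟩
      · rw [← div_eq_mul_inv, le_div_iff₀ (by positivity), pow_succ]
        have : 0 < q ^ n := by positivity
        nlinarith
      · rw [← div_eq_mul_inv, div_le_iff₀ (by positivity)]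
        have : 0 < q ^ (n + 1) := by positivity
        linarith
  refine le_of_tendsto hlim ?_
  filter_upwards [eventually_gt_atTop k0] with N hN
  have hprod : ‖∏ k ∈ Finset.range N,
      RR (z ^ 2 * ((q ^ k)⁻¹ : ℝ)) ^ (2 ^ k)‖ ^ 6 * ‖∏ k ∈ Finset.range N,
      RR (z' ^ 2 * ((q ^ k)⁻¹ : ℝ)) ^ (2 ^ k)‖ ^ 5 = ∏ k ∈ Finset.range N,
      (‖RR (z ^ 2 * ((q ^ k)⁻¹ : ℝ))‖ ^ 6 *
        ‖RR (-((‖z ^ 2 * (((q ^ k)⁻¹ : ℝ) : ℂ)‖ : ℝ) : ℂ))‖ ^ 5) ^ (2 ^ k) := by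
    rw [norm_prod, norm_prod, ← Finset.prod_pow, ← Finset.prod_pow, ← Finset.prod_mul_distrib]
    apply Finset.prod_congr rfl
    intro k _
    rw [ht' k, norm_pow, norm_pow]
    ring
  rw [hprod]
  have hk0 : k0 ∈ Finset.range N := Finset.mem_range.2 hN
  rw [← Finset.mul_prod_erase _ _ hk0]
  have hE : ∀ k, ‖RR (z ^ 2 * ((q ^ k)⁻¹ : ℝ))‖ ^ 6 *
        ‖RR (-((‖z ^ 2 * (((q ^ k)⁻¹ : ℝ) : ℂ)‖ : ℝ) : ℂ))‖ ^ 5 ≤
        Real.exp (min (1 / 20) (2 * (r ^ 2 * (q ^ k)⁻¹))) := by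
    intro k
    have := E_general _ (factor_HH hq hz k)
    rw [ht k] at this ⊢
    exact this
  have hE0 : ‖RR (z ^ 2 * ((q ^ k0)⁻¹ : ℝ))‖ ^ 6 *
        ‖RR (-((‖z ^ 2 * (((q ^ k0)⁻¹ : ℝ) : ℂ)‖ : ℝ) : ℂ))‖ ^ 5 ≤
        Real.exp (-(299 / 100)) := by
    apply E_special _ (factor_HH hq hz k0)
    · rw [ht k0]; exact hk1
    · rw [ht k0]; exact hk2
  have hP : ∏ k ∈ (Finset.range N).erase k0, (‖RR (z ^ 2 * ((q ^ k)⁻¹ : ℝ))‖ ^ 6 *
        ‖RR (-((‖z ^ 2 * (((q ^ k)⁻¹ : ℝ) : ℂ)‖ : ℝ) : ℂ))‖ ^ 5) ^ (2 ^ k) ≤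
        Real.exp (9 / 5 * 2 ^ n) := by
    calc _ ≤ ∏ k ∈ (Finset.range N).erase k0,
          Real.exp ((2 : ℝ) ^ k * min (1 / 20) (2 * (r ^ 2 * (q ^ k)⁻¹))) := by
          apply Finset.prod_le_prod
          · intro k _; positivity
          · intro k _
            calc _ ≤ (Real.exp (min (1 / 20) (2 * (r ^ 2 * (q ^ k)⁻¹)))) ^ (2 ^ k) :=
                  pow_le_pow_left₀ (by positivity) (hE k) _
              _ = _ := by rw [← Real.exp_nat_mul]; push_cast; rfl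
      _ = Real.exp (∑ k ∈ (Finset.range N).erase k0,
          (2 : ℝ) ^ k * min (1 / 20) (2 * (r ^ 2 * (q ^ k)⁻¹))) := by rw [Real.exp_sum]
      _ ≤ Real.exp (9 / 5 * 2 ^ n) := by
          apply Real.exp_le_exp.2
          refine le_trans ?_ (sum_bound hq h2 N)
          apply Finset.sum_le_sum_of_subset_of_nonneg (Finset.erase_subset _ _)
          intro k _ _
          apply mul_nonneg (by positivity)
          apply le_min (by norm_num)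
          have := nn1 hq k
          positivity
  have hS : (‖RR (z ^ 2 * ((q ^ k0)⁻¹ : ℝ))‖ ^ 6 *
        ‖RR (-((‖z ^ 2 * (((q ^ k0)⁻¹ : ℝ) : ℂ)‖ : ℝ) : ℂ))‖ ^ 5) ^ (2 ^ k0) ≤
        Real.exp (-(299 / 100) * 2 ^ n) := by
    calc _ ≤ (Real.exp (-(299 / 100))) ^ (2 ^ k0) := pow_le_pow_left₀ (by positivity) hE0 _
      _ = Real.exp (-(299 / 100) * 2 ^ k0) := by
          rw [← Real.exp_nat_mul]; push_cast; ring_nf
      _ ≤ Real.exp (-(299 / 100) * 2 ^ n) := by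
          apply Real.exp_le_exp.2
          have : (2 : ℝ) ^ n ≤ 2 ^ k0 := pow_le_pow_right₀ (by norm_num) hk0n
          nlinarith
  calc _ ≤ Real.exp (-(299 / 100) * 2 ^ n) * Real.exp (9 / 5 * 2 ^ n) :=
        mul_le_mul hS hP (Finset.prod_nonneg fun k _ => by positivity) (Real.exp_pos _).le
    _ = Real.exp (-(119 / 100) * 2 ^ n) := by rw [← Real.exp_add]; ring_nf
    _ ≤ 1 := by
        apply Real.exp_le_one_iff.2
        have : (0 : ℝ) < 2 ^ n := by positivity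
        nlinarith

/-- lower bound where `Re z^2 ≥ 0` -/
theorem lower_bound (hq : 4 < q) (hq2 : q ≤ 22 / 5) {z : ℂ} (hz : HH q z ≠ 0)
    (hre : 0 ≤ (z ^ 2).re) {n : ℕ} (h1 : q ^ n ≤ ‖z‖ ^ 2) (h2 : ‖z‖ ^ 2 < q ^ (n + 1)) :
    Real.exp (7 / 100 * 2 ^ n) ≤ ‖FF q z‖ := by
  have hq0 : 0 < q := by linarith
  have ht : ∀ k, ‖z ^ 2 * (((q ^ k)⁻¹ : ℝ) : ℂ)‖ = ‖z‖ ^ 2 * (q ^ k)⁻¹ := norm_scaled hq z
  have hR : ∀ k, 1 + (2 * (‖z‖ ^ 2 * (q ^ k)⁻¹) / (1 + (‖z‖ ^ 2 * (q ^ k)⁻¹) ^ 2)) ^ 2 ≤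
      ‖RR (z ^ 2 * ((q ^ k)⁻¹ : ℝ))‖ ^ 2 := by
    intro k
    have := one_le_RR _ (factor_HH hq hz k) (by
      rw [Complex.re_mul_ofReal]
      exact mul_nonneg hre (nn1 hq k))
    rwa [ht k] at this
  have hR1 : ∀ k, 1 ≤ ‖RR (z ^ 2 * ((q ^ k)⁻¹ : ℝ))‖ ^ 2 := by
    intro k
    refine le_trans ?_ (hR k)
    have := sq_nonneg (2 * (‖z‖ ^ 2 * (q ^ k)⁻¹) / (1 + (‖z‖ ^ 2 * (q ^ k)⁻¹) ^ 2))
    linarith
  have hlim : Tendsto (fun N => ‖∏ k ∈ Finset.range N,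
      RR (z ^ 2 * ((q ^ k)⁻¹ : ℝ)) ^ (2 ^ k)‖ ^ 2) atTop (𝓝 (‖FF q z‖ ^ 2)) :=
    (tendsto_FF hq hz).norm.pow 2
  have hmain : Real.exp (7 / 50 * 2 ^ n) ≤ ‖FF q z‖ ^ 2 := by
    refine ge_of_tendsto hlim ?_
    filter_upwards [eventually_gt_atTop n] with N hN
    have hprod : ‖∏ k ∈ Finset.range N, RR (z ^ 2 * ((q ^ k)⁻¹ : ℝ)) ^ (2 ^ k)‖ ^ 2 =
        ∏ k ∈ Finset.range N, (‖RR (z ^ 2 * ((q ^ k)⁻¹ : ℝ))‖ ^ 2) ^ (2 ^ k) := by
      rw [norm_prod, ← Finset.prod_pow]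
      apply Finset.prod_congr rfl
      intro k _
      rw [norm_pow]; ring
    rw [hprod]
    have hk0 : n ∈ Finset.range N := Finset.mem_range.2 hN
    rw [← Finset.mul_prod_erase _ _ hk0]
    have hP : 1 ≤ ∏ k ∈ (Finset.range N).erase n,
        (‖RR (z ^ 2 * ((q ^ k)⁻¹ : ℝ))‖ ^ 2) ^ (2 ^ k) := by
      have := Finset.prod_le_prod (s := (Finset.range N).erase n) (f := fun _ => (1 : ℝ))
        (g := fun k => (‖RR (z ^ 2 * ((q ^ k)⁻¹ : ℝ))‖ ^ 2) ^ (2 ^ k))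
        (fun _ _ => zero_le_one) (fun k _ => one_le_pow₀ (hR1 k))
      simpa using this
    have hS : Real.exp (7 / 50 * 2 ^ n) ≤
        (‖RR (z ^ 2 * ((q ^ n)⁻¹ : ℝ))‖ ^ 2) ^ (2 ^ n) := by
      have ht1 : 1 ≤ ‖z‖ ^ 2 * (q ^ n)⁻¹ := by
        rw [← div_eq_mul_inv, one_le_div (by positivity)]; exact h1
      have ht2 : ‖z‖ ^ 2 * (q ^ n)⁻¹ ≤ 22 / 5 := by
        rw [← div_eq_mul_inv, div_le_iff₀ (by positivity)]
        rw [pow_succ q n] at h2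
        have : 0 < q ^ n := by positivity
        nlinarith
      have hn := hR n
      set t := ‖z‖ ^ 2 * (q ^ n)⁻¹
      have hx : 43 / 100 ≤ 2 * t / (1 + t ^ 2) := by
        rw [le_div_iff₀ (by positivity)]
        nlinarith
      have hx2 : (43 / 100 : ℝ) ^ 2 ≤ (2 * t / (1 + t ^ 2)) ^ 2 :=
        pow_le_pow_left₀ (by norm_num) hx 2
      have h3 : (118 / 100 : ℝ) ≤ ‖RR (z ^ 2 * ((q ^ n)⁻¹ : ℝ))‖ ^ 2 := by
        refine le_trans ?_ hn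
        norm_num at hx2 ⊢
        linarith
      have h4 : Real.exp (7 / 50) ≤ 118 / 100 := by
        have h5 : 1 - 7 / 50 ≤ Real.exp (-(7 / 50)) := by
          have := Real.add_one_le_exp (-(7 / 50) : ℝ); linarith
        have h6 : Real.exp (7 / 50) * Real.exp (-(7 / 50)) = 1 := by
          rw [← Real.exp_add]; simp
        have h7 := Real.exp_pos (7 / 50)
        nlinarith
      calc Real.exp (7 / 50 * 2 ^ n) = (Real.exp (7 / 50)) ^ (2 ^ n) := by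
            rw [← Real.exp_nat_mul]; push_cast; ring_nf
        _ ≤ _ := pow_le_pow_left₀ (Real.exp_pos _).le (h4.trans h3) _
    calc Real.exp (7 / 50 * 2 ^ n) = Real.exp (7 / 50 * 2 ^ n) * 1 := (mul_one _).symm
      _ ≤ _ := mul_le_mul hS hP zero_le_one (by positivity)
  have h8 : Real.exp (7 / 50 * 2 ^ n) = (Real.exp (7 / 100 * 2 ^ n)) ^ 2 := by
    rw [← Real.exp_nat_mul]; push_cast; ring_nf
  rw [h8] at hmain
  exact le_of_sq_le_sq hmain (norm_nonneg _)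

end

end Pool.Agent.Lib.MP_fc0bf6_an
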