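import Mathlib
import Pool.Agent.Lib.MP_fc0bf6_an.Growth

set_option autoImplicit false

namespace Pool.Agent.Lib.MP_fc0bf6_an

open Filter Topology

section

variable {q : ℝ}

/-- the exponents used for the upper bound -/
noncomputable def gexp (n k : ℕ) : ℝ :=
  if k ≤ n then 2 * ((n + 1 - k : ℕ) : ℝ) else (1 / 4 : ℝ) ^ (k - (n + 1))

theorem exp_two_ge : (27 / 5 : ℝ) ≤ Real.exp 2 := by
  have h : Real.exp 2 = Real.exp 1 ^ 2 := by rw [← Real.exp_nat_mul]; norm_num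
  have h1 := Real.exp_one_gt_d9
  rw [h]
  nlinarith

theorem one_add_pow_le (x : ℝ) (hx : 0 ≤ x) (m : ℕ) (hm : 1 ≤ m) : 1 + x ^ m ≤ (1 + x) ^ m := by
  induction m, hm using Nat.le_induction with
  | base => simp
  | succ m hm ih =>
    have h1 : 0 ≤ x ^ m := by positivity
    calc 1 + x ^ (m + 1) ≤ (1 + x ^ m) * (1 + x) := by rw [pow_succ]; nlinarith
      _ ≤ (1 + x) ^ m * (1 + x) := by gcongr
      _ = (1 + x) ^ (m + 1) := by rw [pow_succ]

theorem one_add_t_le (hq : 4 < q) (hq2 : q ≤ 22 / 5) {r : ℝ} {n : ℕ}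
    (h2 : r ^ 2 < q ^ (n + 1)) (k : ℕ) :
    1 + r ^ 2 * (q ^ k)⁻¹ ≤ Real.exp (gexp n k) := by
  have hq0 : 0 < q := by linarith
  unfold gexp
  split_ifs with h
  · obtain ⟨m, hm⟩ : ∃ m, n + 1 = k + (m + 1) := ⟨n - k, by omega⟩
    have e : n + 1 - k = m + 1 := by omega
    rw [e]
    have h3 : r ^ 2 * (q ^ k)⁻¹ ≤ (22 / 5 : ℝ) ^ (m + 1) := by
      rw [← div_eq_mul_inv, div_le_iff₀ (by positivity)]
      calc r ^ 2 ≤ q ^ (n + 1) := h2.le
        _ = q ^ (m + 1) * q ^ k := by rw [hm, pow_add]; ring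
        _ ≤ (22 / 5 : ℝ) ^ (m + 1) * q ^ k := by gcongr
    calc 1 + r ^ 2 * (q ^ k)⁻¹ ≤ 1 + (22 / 5 : ℝ) ^ (m + 1) := by linarith
      _ ≤ (1 + 22 / 5 : ℝ) ^ (m + 1) := one_add_pow_le _ (by norm_num) _ (by omega)
      _ ≤ (Real.exp 2) ^ (m + 1) := by
          apply pow_le_pow_left₀ (by norm_num)
          have := exp_two_ge
          norm_num at this ⊢
          linarith
      _ = Real.exp (2 * ((m + 1 : ℕ) : ℝ)) := by
          rw [← Real.exp_nat_mul]; ring_nf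
  · push Not at h
    obtain ⟨i, hi⟩ := Nat.exists_eq_add_of_le (Nat.succ_le_of_lt h)
    have e : k = n + 1 + i := by omega
    rw [e, Nat.add_sub_cancel_left]
    have h3 := tail_t hq h2 i
    have h4 := Real.add_one_le_exp ((1 / 4 : ℝ) ^ i)
    linarith

theorem gexp_nonneg (n k : ℕ) : 0 ≤ gexp n k := by
  unfold gexp
  split_ifs <;> positivity

theorem sum_first (n : ℕ) :
    ∑ k ∈ Finset.range (n + 1), (2 : ℝ) ^ (k + 1) * (2 * ((n + 1 - k : ℕ) : ℝ))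
      = 16 * 2 ^ n - 4 * n - 12 := by
  induction n with
  | zero => norm_num
  | succ n ih =>
    have h1 : ∀ k ∈ Finset.range (n + 1), (2 : ℝ) ^ (k + 1) * (2 * ((n + 1 + 1 - k : ℕ) : ℝ))
        = (2 : ℝ) ^ (k + 1) * (2 * ((n + 1 - k : ℕ) : ℝ)) + 4 * 2 ^ k := by
      intro k hk
      rw [Finset.mem_range] at hk
      have : ((n + 1 + 1 - k : ℕ) : ℝ) = ((n + 1 - k : ℕ) : ℝ) + 1 := by
        have : n + 1 + 1 - k = (n + 1 - k) + 1 := by omega
        rw [this]; push_cast; rfl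
      rw [this, pow_succ]; ring
    rw [Finset.sum_range_succ, Finset.sum_congr rfl h1, Finset.sum_add_distrib, ih,
      ← Finset.mul_sum, geom_sum_eq (by norm_num)]
    have h2 : n + 1 + 1 - (n + 1) = 1 := by omega
    rw [h2]
    push_cast
    rw [pow_succ, pow_succ]
    ring

theorem sum_gexp (n N : ℕ) : ∑ k ∈ Finset.range N, (2 : ℝ) ^ (k + 1) * gexp n k ≤ 24 * 2 ^ n := by
  have hA : ∑ k ∈ Finset.range (n + 1), (2 : ℝ) ^ (k + 1) * gexp n k ≤ 16 * 2 ^ n := by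
    have h1 : ∑ k ∈ Finset.range (n + 1), (2 : ℝ) ^ (k + 1) * gexp n k =
        ∑ k ∈ Finset.range (n + 1), (2 : ℝ) ^ (k + 1) * (2 * ((n + 1 - k : ℕ) : ℝ)) := by
      apply Finset.sum_congr rfl
      intro k hk
      rw [Finset.mem_range] at hk
      rw [gexp, if_pos (by omega)]
    rw [h1, sum_first]
    have : (0 : ℝ) ≤ n := Nat.cast_nonneg n
    linarith
  have hB : ∀ M : ℕ, ∑ i ∈ Finset.range M, (2 : ℝ) ^ (n + 1 + i + 1) * gexp n (n + 1 + i) ≤
      2 ^ n * (8 * (1 - (1 / 2) ^ M)) := by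
    intro M
    induction M with
    | zero => simp
    | succ M ih =>
      rw [Finset.sum_range_succ]
      have h3 : (2 : ℝ) ^ (n + 1 + M + 1) * gexp n (n + 1 + M) = 2 ^ n * (4 * (1 / 2) ^ M) := by
        rw [gexp, if_neg (by omega), Nat.add_sub_cancel_left]
        have : (4 : ℝ) * (1 / 2) ^ M = 4 * ((2 : ℝ) * (1 / 4)) ^ M := by norm_num
        rw [this, mul_pow, pow_add, pow_add, pow_add]; ring
      rw [h3]
      calc _ ≤ 2 ^ n * (8 * (1 - (1 / 2) ^ M)) + 2 ^ n * (4 * (1 / 2) ^ M) :=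
            add_le_add ih le_rfl
        _ = _ := by rw [pow_succ]; ring
  have h0 : (0 : ℝ) < 2 ^ n := by positivity
  rcases le_total N (n + 1) with h | h
  · calc _ ≤ ∑ k ∈ Finset.range (n + 1), (2 : ℝ) ^ (k + 1) * gexp n k := by
          apply Finset.sum_le_sum_of_subset_of_nonneg
          · exact Finset.range_subset_range.2 h
          · intro k _ _; exact mul_nonneg (by positivity) (gexp_nonneg n k)
      _ ≤ 16 * 2 ^ n := hA
      _ ≤ 24 * 2 ^ n := by gcongr; norm_num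
  · obtain ⟨M, rfl⟩ := Nat.exists_eq_add_of_le h
    rw [Finset.sum_range_add]
    have h5 : (0 : ℝ) ≤ (1 / 2) ^ M := by positivity
    have h6 : (2 : ℝ) ^ n * (8 * (1 - (1 / 2) ^ M)) ≤ 8 * 2 ^ n := by nlinarith
    linarith [hB M]

theorem prod_bound (hq : 4 < q) (hq2 : q ≤ 22 / 5) {r : ℝ} {n : ℕ}
    (h2 : r ^ 2 < q ^ (n + 1)) (N : ℕ) :
    ∏ k ∈ Finset.range N, (1 + r ^ 2 * (q ^ k)⁻¹) ^ (2 ^ (k + 1)) ≤ Real.exp (24 * 2 ^ n) := by
  calc _ ≤ ∏ k ∈ Finset.range N, Real.exp ((2 : ℝ) ^ (k + 1) * gexp n k) := by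
        apply Finset.prod_le_prod
        · intro k _
          have := nn1 hq k
          positivity
        · intro k _
          have := nn1 hq k
          calc _ ≤ (Real.exp (gexp n k)) ^ (2 ^ (k + 1)) :=
                pow_le_pow_left₀ (by positivity) (one_add_t_le hq hq2 h2 k) _
            _ = _ := by rw [← Real.exp_nat_mul]; push_cast; rfl
    _ = Real.exp (∑ k ∈ Finset.range N, (2 : ℝ) ^ (k + 1) * gexp n k) := by rw [Real.exp_sum]
    _ ≤ _ := Real.exp_le_exp.2 (sum_gexp n N)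

theorem norm_GG_le (hq : 4 < q) (hq2 : q ≤ 22 / 5) {z : ℂ} {n : ℕ}
    (h2 : ‖z‖ ^ 2 < q ^ (n + 1)) : ‖GG q z‖ ≤ Real.exp (24 * 2 ^ n) := by
  have hlim := (tendsto_IP (nn1 hq) (summable1 hq) (z ^ 2)).norm
  refine le_of_tendsto hlim (Eventually.of_forall fun N => ?_)
  refine le_trans ?_ (prod_bound hq hq2 h2 N)
  rw [norm_prod]
  apply Finset.prod_le_prod (fun _ _ => norm_nonneg _)
  intro k _
  rw [norm_pow]
  apply pow_le_pow_left₀ (norm_nonneg _)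
  refine (norm_add_le _ _).trans ?_
  rw [norm_one, norm_scaled hq z k]

theorem norm_HH_le (hq : 4 < q) (hq2 : q ≤ 22 / 5) {z : ℂ} {n : ℕ}
    (h2 : ‖z‖ ^ 2 < q ^ (n + 1)) : ‖HH q z‖ ≤ Real.exp (24 * 2 ^ n) := by
  have hlim := (tendsto_IP (nn2 q) (summable2 hq) (z ^ 4)).norm
  refine le_of_tendsto hlim (Eventually.of_forall fun N => ?_)
  refine le_trans ?_ (prod_bound hq hq2 h2 N)
  rw [norm_prod]
  apply Finset.prod_le_prod (fun _ _ => norm_nonneg _)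
  intro k _
  rw [norm_pow, pow_succ 2 k, mul_comm (2 ^ k) 2, pow_mul (1 + ‖z‖ ^ 2 * (q ^ k)⁻¹) 2 (2 ^ k)]
  apply pow_le_pow_left₀ (norm_nonneg _)
  refine (norm_add_le _ _).trans ?_
  have h3 : ‖z ^ 4 * ((((q ^ k)⁻¹) ^ 2 : ℝ) : ℂ)‖ = (‖z‖ ^ 2 * (q ^ k)⁻¹) ^ 2 := by
    rw [norm_mul, norm_pow, Complex.norm_real, Real.norm_of_nonneg (nn2 q k)]
    ring
  rw [norm_one, h3]
  have := nn1 hq k
  have h4 : 0 ≤ ‖z‖ ^ 2 * (q ^ k)⁻¹ := by positivity
  nlinarith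

end

end Pool.Agent.Lib.MP_fc0bf6_an
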