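import Mathlib
import Pool.Agent.Lib.MP_fc0bf6_an.Upper

set_option autoImplicit false

namespace Pool.Agent.Lib.MP_fc0bf6_an

open Filter Topology ValueDistribution Real

section

variable {q : ℝ}

theorem meromorphic_of_differentiable {g : ℂ → ℂ} (h : Differentiable ℂ g) : Meromorphic g :=
  fun z => (h.analyticAt z).meromorphicAt

theorem order_ne_top {g : ℂ → ℂ} (h : Differentiable ℂ g) (h0 : g 0 ≠ 0) (z : ℂ) :
    meromorphicOrderAt g z ≠ ⊤ := by
  have hm : MeromorphicOn g Set.univ := fun z _ => (h.analyticAt z).meromorphicAt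
  have h1 : meromorphicOrderAt g 0 ≠ ⊤ := by
    rw [meromorphicOrderAt_ne_top_iff_eventually_ne_zero (h.analyticAt 0).meromorphicAt]
    have : ∀ᶠ x in 𝓝 (0 : ℂ), g x ≠ 0 := h.continuous.continuousAt.eventually_ne h0
    exact this.filter_mono nhdsWithin_le_nhds
  exact hm.meromorphicOrderAt_ne_top_of_isPreconnected isPreconnected_univ (Set.mem_univ 0)
    (Set.mem_univ z) h1

theorem logCounting_entire {g : ℂ → ℂ} (h : Differentiable ℂ g) : logCounting g ⊤ = 0 := by
  have h1 := logCounting_add_analyticOn (f := fun _ : ℂ => (0 : ℂ)) (g := g)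
    (fun z => MeromorphicAt.const 0 z) (fun z _ => (h.analyticAt z).analyticWithinAt)
  have h2 : (fun _ : ℂ => (0 : ℂ)) + g = g := by ext z; simp
  rw [h2] at h1
  rw [h1]
  exact logCounting_const

theorem char_entire_le {g : ℂ → ℂ} (h : Differentiable ℂ g) {r C : ℝ} (hr : 0 ≤ r) (hC : 0 ≤ C)
    (hb : ∀ z : ℂ, ‖z‖ = r → ‖g z‖ ≤ Real.exp C) : characteristic g ⊤ r ≤ C := by
  rw [characteristic, Pi.add_apply, logCounting_entire h, Pi.zero_apply, add_zero, proximity_top]
  apply circleAverage_mono_on_of_le_circle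
  · exact MeromorphicOn.circleIntegrable_posLog_norm
      (fun z _ => (h.analyticAt z).meromorphicAt)
  · intro z hz
    have hz' : ‖z‖ = r := by
      rw [mem_sphere_zero_iff_norm] at hz
      rw [hz, abs_of_nonneg hr]
    rw [Real.posLog_def]
    apply max_le hC
    rcases eq_or_lt_of_le (norm_nonneg (g z)) with h0 | h0
    · rw [← h0]; simpa using hC
    · rw [Real.log_le_iff_le_exp h0]; exact hb z hz'

theorem char_inv_eq {g : ℂ → ℂ} (h : Differentiable ℂ g) (h0 : g 0 = 1) {r : ℝ} (hr : r ≠ 0) :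
    characteristic g⁻¹ ⊤ r = characteristic g ⊤ r := by
  have h1 := characteristic_sub_characteristic_inv_of_ne_zero
    (meromorphic_of_differentiable h) hr
  rw [(h.analyticAt 0).meromorphicTrailingCoeffAt_of_ne_zero (by rw [h0]; exact one_ne_zero),
    h0, norm_one, Real.log_one] at h1
  linarith

theorem FF_eq (q : ℝ) : FF q = GG q * (HH q)⁻¹ := by
  ext z
  simp [FF, div_eq_mul_inv]

theorem meromorphic_FF (hq : 4 < q) : Meromorphic (FF q) := by
  rw [FF_eq]
  intro z
  exact ((differentiable_GG hq).analyticAt z).meromorphicAt.mul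
    ((differentiable_HH hq).analyticAt z).meromorphicAt.inv

theorem inv_order_ne_top (hq : 4 < q) (z : ℂ) : meromorphicOrderAt (HH q)⁻¹ z ≠ ⊤ := by
  rw [meromorphicOrderAt_inv]
  have := order_ne_top (differentiable_HH hq) (by rw [HH_zero]; exact one_ne_zero) z
  intro h
  apply this
  rw [← neg_neg (meromorphicOrderAt (HH q) z), h, LinearOrderedAddCommGroupWithTop.neg_top]

theorem char_HH_inv_le (hq : 4 < q) (hq2 : q ≤ 22 / 5) {r : ℝ} (hr : 0 < r) {n : ℕ}
    (h2 : r ^ 2 < q ^ (n + 1)) : characteristic (HH q)⁻¹ ⊤ r ≤ 24 * 2 ^ n := by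
  rw [char_inv_eq (differentiable_HH hq) HH_zero hr.ne']
  apply char_entire_le (differentiable_HH hq) hr.le (by positivity)
  intro z hz
  exact norm_HH_le hq hq2 (by rw [hz]; exact h2)

theorem char_GG_le (hq : 4 < q) (hq2 : q ≤ 22 / 5) {r : ℝ} (hr : 0 < r) {n : ℕ}
    (h2 : r ^ 2 < q ^ (n + 1)) : characteristic (GG q) ⊤ r ≤ 24 * 2 ^ n := by
  apply char_entire_le (differentiable_GG hq) hr.le (by positivity)
  intro z hz
  exact norm_GG_le hq hq2 (by rw [hz]; exact h2)

/-- upper bound for the Nevanlinna characteristic -/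
theorem char_FF_le (hq : 4 < q) (hq2 : q ≤ 22 / 5) {r : ℝ} (hr : 1 ≤ r) {n : ℕ}
    (h2 : r ^ 2 < q ^ (n + 1)) : characteristic (FF q) ⊤ r ≤ 48 * 2 ^ n := by
  rw [FF_eq]
  have h := characteristic_mul_top_le (f₁ := GG q) (f₂ := (HH q)⁻¹) hr
    (meromorphic_of_differentiable (differentiable_GG hq))
    (order_ne_top (differentiable_GG hq) (by rw [GG_zero]; exact one_ne_zero))
    (fun z => ((differentiable_HH hq).analyticAt z).meromorphicAt.inv)
    (inv_order_ne_top hq)
  refine h.trans ?_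
  rw [Pi.add_apply]
  have h3 := char_GG_le hq hq2 (by linarith : (0 : ℝ) < r) h2
  have h4 := char_HH_inv_le hq hq2 (by linarith : (0 : ℝ) < r) h2
  linarith

/-- upper bound for the counting function of the poles -/
theorem logCounting_FF_le (hq : 4 < q) (hq2 : q ≤ 22 / 5) {r : ℝ} (hr : 1 ≤ r) {n : ℕ}
    (h2 : r ^ 2 < q ^ (n + 1)) : logCounting (FF q) ⊤ r ≤ 24 * 2 ^ n := by
  rw [FF_eq]
  have h := logCounting_mul_top_le (f₁ := GG q) (f₂ := (HH q)⁻¹) hr
    (meromorphic_of_differentiable (differentiable_GG hq))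
    (order_ne_top (differentiable_GG hq) (by rw [GG_zero]; exact one_ne_zero))
    (fun z => ((differentiable_HH hq).analyticAt z).meromorphicAt.inv)
    (inv_order_ne_top hq)
  refine h.trans ?_
  rw [Pi.add_apply, logCounting_entire (differentiable_GG hq), Pi.zero_apply, zero_add]
  refine le_trans ?_ (char_HH_inv_le hq hq2 (by linarith : (0 : ℝ) < r) h2)
  rw [characteristic, Pi.add_apply]
  have := proximity_nonneg (f := (HH q)⁻¹) (a := ⊤) r
  simp only [Pi.zero_apply] at this
  linarith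

theorem circleAverage_I_mul (F : ℂ → ℝ) (r : ℝ) :
    circleAverage (fun z => F (Complex.I * z)) 0 r = circleAverage F 0 r := by
  rw [circleAverage_eq_integral_add (f := F) (π / 2), circleAverage]
  congr 1
  apply intervalIntegral.integral_congr
  intro θ _
  simp only
  congr 1
  simp only [circleMap, zero_add]
  rw [show ((θ + π / 2 : ℝ) : ℂ) * Complex.I = (θ : ℂ) * Complex.I + (π / 2 : ℂ) * Complex.I by
    push_cast; ring, Complex.exp_add, Complex.exp_pi_div_two_mul_I]
  ring

theorem proximity_lower (hq : 4 < q) (hq2 : q ≤ 22 / 5) {r : ℝ} (hr : 0 < r)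
    (hcirc : ∀ z : ℂ, ‖z‖ = r → HH q z ≠ 0) {n : ℕ} (h1 : q ^ n ≤ r ^ 2)
    (h2 : r ^ 2 < q ^ (n + 1)) : 7 / 200 * 2 ^ n ≤ proximity (FF q) ⊤ r := by
  rw [proximity_top]
  have hm : Meromorphic (FF q) := meromorphic_FF hq
  have hm2 : Meromorphic (fun z => FF q (Complex.I * z)) := by
    intro z
    have h3 : (fun z => FF q (Complex.I * z)) =
        (fun z => GG q (Complex.I * z)) / (fun z => HH q (Complex.I * z)) := by
      ext z; simp [FF]
    rw [h3]
    apply MeromorphicAt.div
    · exact (((differentiable_GG hq).comp (by fun_prop : Differentiable ℂ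
        (fun z : ℂ => Complex.I * z))).analyticAt z).meromorphicAt
    · exact (((differentiable_HH hq).comp (by fun_prop : Differentiable ℂ
        (fun z : ℂ => Complex.I * z))).analyticAt z).meromorphicAt
  have hi1 : CircleIntegrable (fun z => log⁺ ‖FF q z‖) 0 r :=
    MeromorphicOn.circleIntegrable_posLog_norm (fun z _ => hm z)
  have hi2 : CircleIntegrable (fun z => log⁺ ‖FF q (Complex.I * z)‖) 0 r :=
    MeromorphicOn.circleIntegrable_posLog_norm (f := fun z => FF q (Complex.I * z))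
      (fun z _ => hm2 z)
  have h3 := circleAverage_I_mul (fun z => log⁺ ‖FF q z‖) r
  have h4 := circleAverage_fun_add hi1 hi2
  have h5 : 7 / 100 * 2 ^ n ≤
      circleAverage (fun z => log⁺ ‖FF q z‖ + log⁺ ‖FF q (Complex.I * z)‖) 0 r := by
    rw [← circleAverage_const (7 / 100 * 2 ^ n : ℝ) (0 : ℂ) r]
    apply circleAverage_mono (circleIntegrable_const _ _ _) (hi1.add hi2)
    intro z hz
    have hz' : ‖z‖ = r := by
      rw [mem_sphere_zero_iff_norm] at hz
      rw [hz, abs_of_pos hr]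
    have hz'' : ‖Complex.I * z‖ = r := by rw [norm_mul, Complex.norm_I, one_mul, hz']
    have hp1 : 0 ≤ log⁺ ‖FF q z‖ := posLog_nonneg
    have hp2 : 0 ≤ log⁺ ‖FF q (Complex.I * z)‖ := posLog_nonneg
    have key : ∀ w : ℂ, ‖w‖ = r → 0 ≤ (w ^ 2).re → 7 / 100 * 2 ^ n ≤ log⁺ ‖FF q w‖ := by
      intro w hw hre
      have h6 := lower_bound hq hq2 (hcirc w hw) hre (n := n) (by rw [hw]; exact h1)
        (by rw [hw]; exact h2)
      have h7 : 7 / 100 * 2 ^ n ≤ Real.log ‖FF q w‖ := by
        rw [Real.le_log_iff_exp_le ((Real.exp_pos _).trans_le h6)]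
        exact h6
      rw [Real.posLog_def]
      exact h7.trans (le_max_right _ _)
    simp only [Pi.add_apply]
    rcases le_total 0 ((z ^ 2).re) with h | h
    · have := key z hz' h
      linarith
    · have : 0 ≤ ((Complex.I * z) ^ 2).re := by
        rw [mul_pow, Complex.I_sq]
        simpa using h
      have := key _ hz'' this
      linarith
  rw [h4, h3] at h5
  have h8 : (fun z => log⁺ ‖FF q z‖) = (log⁺ ‖FF q ·‖) := rfl
  linarith

end

end Pool.Agent.Lib.MP_fc0bf6_an
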