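import Mathlib
import Pool.Agent.Lib.MP_fc0bf6_an.Nevanlinna

set_option autoImplicit false

namespace Pool.Agent.Lib.MP_fc0bf6_an

open Filter Topology ValueDistribution Real

section

variable {q : ℝ}

/-- circle-free circles: values of `HH` do not vanish -/
theorem HH_ne_zero_of {r : ℝ} (h : ∀ z : ℂ, ‖z‖ = r → AnalyticAt ℂ (FF q) z ∧ FF q z ≠ 0) (z : ℂ)
    (hz : ‖z‖ = r) : HH q z ≠ 0 := by
  intro h0
  apply (h z hz).2
  rw [FF, h0, div_zero]

/-- the core estimates on a circle free of zeros and poles -/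
theorem core (hq : 4 < q) (hq2 : q ≤ 22 / 5) {r : ℝ} (hr : 1 ≤ r)
    (h : ∀ z : ℂ, ‖z‖ = r → AnalyticAt ℂ (FF q) z ∧ FF q z ≠ 0) {n : ℕ}
    (h1 : q ^ n ≤ r ^ 2) (h2 : r ^ 2 < q ^ (n + 1)) :
    7 / 100 * 2 ^ n ≤ Real.log (sSup ((fun z => ‖FF q z‖) '' Metric.sphere (0 : ℂ) r)) ∧
    Real.log (sInf ((fun z => ‖FF q z‖) '' Metric.sphere (0 : ℂ) r)) ≤
      -(6 / 5) * Real.log (sSup ((fun z => ‖FF q z‖) '' Metric.sphere (0 : ℂ) r)) := by
  have hr0 : 0 < r := by linarith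
  have hcirc := HH_ne_zero_of h
  set S := (fun z => ‖FF q z‖) '' Metric.sphere (0 : ℂ) r with hS
  have hcont : ContinuousOn (fun z => ‖FF q z‖) (Metric.sphere (0 : ℂ) r) := by
    intro z hz
    rw [mem_sphere_zero_iff_norm] at hz
    exact (h z hz).1.continuousAt.norm.continuousWithinAt
  have hcomp : IsCompact S := (isCompact_sphere 0 r).image_of_continuousOn hcont
  have hrmem : (r : ℂ) ∈ Metric.sphere (0 : ℂ) r := by
    rw [mem_sphere_zero_iff_norm, Complex.norm_real, Real.norm_of_nonneg hr0.le]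
  have hne : S.Nonempty := ⟨_, (r : ℂ), hrmem, rfl⟩
  obtain ⟨z1, hz1, hM⟩ := hcomp.sSup_mem hne
  obtain ⟨z2, hz2, hm⟩ := hcomp.sInf_mem hne
  rw [mem_sphere_zero_iff_norm] at hz1 hz2
  simp only at hM hm
  -- lower bound for the maximum
  have hlow : Real.exp (7 / 100 * 2 ^ n) ≤ ‖FF q (r : ℂ)‖ := by
    have hnr : ‖(r : ℂ)‖ = r := by rw [Complex.norm_real, Real.norm_of_nonneg hr0.le]
    apply lower_bound hq hq2 (hcirc _ hnr)
    · have : ((r : ℂ) ^ 2).re = r ^ 2 := by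
        rw [← Complex.ofReal_pow, Complex.ofReal_re]
      rw [this]; positivity
    · rw [hnr]; exact h1
    · rw [hnr]; exact h2
  have hle : ‖FF q (r : ℂ)‖ ≤ sSup S := le_csSup hcomp.bddAbove ⟨_, hrmem, rfl⟩
  have hMpos : 0 < sSup S := (Real.exp_pos _).trans_le (hlow.trans hle)
  have hA : 7 / 100 * 2 ^ n ≤ Real.log (sSup S) := by
    rw [Real.le_log_iff_exp_le hMpos]
    exact hlow.trans hle
  refine ⟨hA, ?_⟩
  -- upper bound for the minimum
  have hirn : ‖Complex.I * (r : ℂ)‖ = r := by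
    rw [norm_mul, Complex.norm_I, one_mul, Complex.norm_real, Real.norm_of_nonneg hr0.le]
  have hir : Complex.I * (r : ℂ) ∈ Metric.sphere (0 : ℂ) r := by
    rw [mem_sphere_zero_iff_norm]; exact hirn
  have hmain : ‖FF q z1‖ ^ 6 * ‖FF q (Complex.I * (r : ℂ))‖ ^ 5 ≤ 1 := by
    apply main_ineq hq hq2 (hcirc z1 hz1) (hcirc _ hirn) (n := n)
    · rw [hz1]; exact h1
    · rw [hz1]; exact h2
    · rw [hz1, mul_pow, Complex.I_sq]; ring
  have hmle : sInf S ≤ ‖FF q (Complex.I * (r : ℂ))‖ := csInf_le hcomp.bddBelow ⟨_, hir, rfl⟩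
  have hmpos : 0 < sInf S := by
    rw [← hm]; exact norm_pos_iff.2 (h z2 hz2).2
  have hirpos : 0 < ‖FF q (Complex.I * (r : ℂ))‖ := hmpos.trans_le hmle
  have hlog : 6 * Real.log (sSup S) + 5 * Real.log ‖FF q (Complex.I * (r : ℂ))‖ ≤ 0 := by
    rw [hM] at hmain
    have h3 := Real.log_le_log (by positivity) hmain
    rw [Real.log_one, Real.log_mul (by positivity) (by positivity), Real.log_pow,
      Real.log_pow] at h3
    push_cast at h3
    exact h3
  have hlog2 : Real.log (sInf S) ≤ Real.log ‖FF q (Complex.I * (r : ℂ))‖ :=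
    Real.log_le_log hmpos hmle
  linarith

theorem ratio_bounds (hq : 4 < q) (hq2 : q ≤ 22 / 5) {r : ℝ} (hr : 1 ≤ r)
    (h : ∀ z : ℂ, ‖z‖ = r → AnalyticAt ℂ (FF q) z ∧ FF q z ≠ 0) :
    Real.log (sInf ((fun z => ‖FF q z‖) '' Metric.sphere (0 : ℂ) r)) /
      Real.log (sSup ((fun z => ‖FF q z‖) '' Metric.sphere (0 : ℂ) r)) ≤ -(6 / 5) ∧
    logCounting (FF q) ⊤ r /
      Real.log (sSup ((fun z => ‖FF q z‖) '' Metric.sphere (0 : ℂ) r)) ≤ 343 := by
  obtain ⟨n, h1, h2⟩ := exists_nat_pow_near (one_le_pow₀ hr (n := 2)) (by linarith : 1 < q)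
  obtain ⟨hA, hB⟩ := core hq hq2 hr h h1 h2
  have hpos : 0 < Real.log (sSup ((fun z => ‖FF q z‖) '' Metric.sphere (0 : ℂ) r)) :=
    lt_of_lt_of_le (by positivity) hA
  constructor
  · rw [div_le_iff₀ hpos]; exact hB
  · rw [div_le_iff₀ hpos]
    refine (logCounting_FF_le hq hq2 hr h2).trans ?_
    have : (0 : ℝ) < 2 ^ n := by positivity
    nlinarith

/-! ### comparison of `2 ^ n` with `r ^ λ` -/

theorem qpow_rpow {lam : ℝ} (hlam : 0 < lam) (hqd : q = (2 : ℝ) ^ (2 / lam)) (n : ℕ) :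
    (q ^ n) ^ (lam / 2) = (2 : ℝ) ^ n := by
  have h0 : (0 : ℝ) ≤ (2 : ℝ) ^ (2 / lam) := Real.rpow_nonneg (by norm_num) _
  rw [hqd, ← Real.rpow_natCast, ← Real.rpow_mul h0, ← Real.rpow_mul (by norm_num)]
  rw [show 2 / lam * ((n : ℝ) * (lam / 2)) = (n : ℝ) by field_simp, Real.rpow_natCast]

theorem sq_rpow {lam r : ℝ} (hr : 0 ≤ r) : (r ^ 2) ^ (lam / 2) = r ^ lam := by
  rw [← Real.rpow_natCast, ← Real.rpow_mul hr]
  congr 1
  push_cast
  ring

theorem two_pow_le {lam r : ℝ} (hlam : 0 < lam) (hq : 4 < q) (hqd : q = (2 : ℝ) ^ (2 / lam))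
    (hr : 0 ≤ r) {n : ℕ} (h1 : q ^ n ≤ r ^ 2) : (2 : ℝ) ^ n ≤ r ^ lam := by
  rw [← qpow_rpow hlam hqd n, ← sq_rpow hr]
  exact Real.rpow_le_rpow (by positivity) h1 (by positivity)

theorem le_two_pow {lam r : ℝ} (hlam : 0 < lam) (hqd : q = (2 : ℝ) ^ (2 / lam))
    (hr : 0 ≤ r) {n : ℕ} (h2 : r ^ 2 < q ^ (n + 1)) : r ^ lam ≤ 2 * (2 : ℝ) ^ n := by
  have h3 : r ^ lam ≤ (2 : ℝ) ^ (n + 1) := by
    rw [← qpow_rpow hlam hqd (n + 1), ← sq_rpow hr]
    exact Real.rpow_le_rpow (by positivity) h2.le (by positivity)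
  rw [pow_succ] at h3
  linarith

/-- `HH` does not vanish on the circle of radius `r` unless `r^2 = q^k` for some `k` -/
theorem HH_ne_zero_circle (hq : 4 < q) {z : ℂ} (hz : ∀ k : ℕ, ‖z‖ ^ 2 ≠ q ^ k) : HH q z ≠ 0 := by
  have hq0 : 0 < q := by linarith
  have hfac : ∀ k : ℕ, 1 + z ^ 4 * ((((q ^ k)⁻¹) ^ 2 : ℝ) : ℂ) ≠ 0 := by
    intro k h0
    have h1 : z ^ 4 * ((((q ^ k)⁻¹) ^ 2 : ℝ) : ℂ) = -1 := by linear_combination h0
    have h2 : ‖z‖ ^ 4 * ((q ^ k)⁻¹) ^ 2 = 1 := by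
      have h3 := congrArg norm h1
      rw [norm_mul, norm_pow, Complex.norm_real, Real.norm_of_nonneg (nn2 q k), norm_neg,
        norm_one] at h3
      exact h3
    have h3 : (‖z‖ ^ 2 * (q ^ k)⁻¹) ^ 2 = 1 := by rw [← h2]; ring
    have h4 : ‖z‖ ^ 2 * (q ^ k)⁻¹ = 1 := by
      have h5 : 0 ≤ ‖z‖ ^ 2 * (q ^ k)⁻¹ := by positivity
      nlinarith
    apply hz k
    field_simp at h4
    exact h4
  unfold HH IP
  have h1 : (fun k => (1 + z ^ 4 * ((((q ^ k)⁻¹) ^ 2 : ℝ) : ℂ)) ^ (2 ^ k)) =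
      fun k => 1 + ((1 + z ^ 4 * ((((q ^ k)⁻¹) ^ 2 : ℝ) : ℂ)) ^ (2 ^ k) - 1) := by
    ext k; ring
  rw [h1]
  apply tprod_one_add_ne_zero_of_summable
  · intro k
    rw [add_sub_cancel]
    exact pow_ne_zero _ (hfac k)
  · refine Summable.of_nonneg_of_le (fun k => norm_nonneg _)
      (fun k => norm_term_le (n := fun k => 2 ^ k) (nn2 q) (summable2 hq) (le_refl ‖z ^ 4‖) k) ?_
    exact (summable2 hq).mul_right _

/-- lower bound of the characteristic, all radii -/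
theorem char_FF_ge (hq : 4 < q) (hq2 : q ≤ 22 / 5) {lam : ℝ} (hlam : 0 < lam) (hlam1 : lam < 1)
    (hqd : q = (2 : ℝ) ^ (2 / lam)) {r : ℝ} (hr : 2 ≤ r) :
    7 / 800 * r ^ lam ≤ characteristic (FF q) ⊤ r := by
  have hq0 : 0 < q := by linarith
  have good : ∀ s : ℝ, 1 ≤ s → (∀ k : ℕ, s ^ 2 ≠ q ^ k) →
      7 / 400 * s ^ lam ≤ characteristic (FF q) ⊤ s := by
    intro s hs hk
    obtain ⟨n, h1, h2⟩ := exists_nat_pow_near (one_le_pow₀ hs (n := 2)) (by linarith : 1 < q)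
    have h3 := proximity_lower hq hq2 (by linarith : (0 : ℝ) < s)
      (fun z hz => HH_ne_zero_circle hq (by rw [hz]; exact hk)) h1 h2
    have h4 := le_two_pow hlam hqd (by linarith : (0 : ℝ) ≤ s) h2
    have h5 : 0 ≤ logCounting (FF q) ⊤ s := logCounting_nonneg hs
    rw [characteristic, Pi.add_apply]
    linarith
  by_cases hc : ∀ k : ℕ, r ^ 2 ≠ q ^ k
  · have h1 := good r (by linarith) hc
    have h2 : 0 ≤ r ^ lam := Real.rpow_nonneg (by linarith) _
    linarith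
  · push Not at hc
    obtain ⟨k, hk⟩ := hc
    -- use a smaller radius
    have h3 : ∀ j : ℕ, (r / 2 * (11 / 10)) ^ 2 ≠ q ^ j := by
      intro j hj
      have e1 : (r / 2 * (11 / 10)) ^ 2 = 121 / 400 * q ^ k := by rw [← hk]; ring
      rw [e1] at hj
      rcases lt_or_ge j k with h | h
      · obtain ⟨i, rfl⟩ := Nat.exists_eq_add_of_lt h
        rw [pow_add, pow_add, pow_one] at hj
        have h5 : 1 ≤ q ^ i := one_le_pow₀ (by linarith)
        have h6 : 0 < q ^ j := by positivity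
        have h7 : 121 / 400 * (q ^ i * q) = 1 := by
          have : q ^ j * (121 / 400 * (q ^ i * q)) = q ^ j * 1 := by linarith
          exact mul_left_cancel₀ h6.ne' this
        nlinarith
      · have h5 : q ^ k ≤ q ^ j := pow_le_pow_right₀ (by linarith) h
        have h6 : 0 < q ^ k := by positivity
        linarith
    have h4 := good (r / 2 * (11 / 10)) (by linarith) h3
    have h5 : characteristic (FF q) ⊤ (r / 2 * (11 / 10)) ≤ characteristic (FF q) ⊤ r := by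
      apply characteristic_monotoneOn (meromorphic_FF hq)
      · simp only [Set.mem_Ioi]; linarith
      · simp only [Set.mem_Ioi]; linarith
      · linarith
    have h6 : 1 / 2 * r ^ lam ≤ (r / 2 * (11 / 10)) ^ lam := by
      have e2 : r / 2 * (11 / 10) = (11 / 20) * r := by ring
      rw [e2, Real.mul_rpow (by norm_num) (by linarith)]
      have h7 : (11 / 20 : ℝ) ≤ (11 / 20 : ℝ) ^ lam := by
        calc (11 / 20 : ℝ) = (11 / 20 : ℝ) ^ (1 : ℝ) := (Real.rpow_one _).symm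
          _ ≤ (11 / 20 : ℝ) ^ lam :=
            Real.rpow_le_rpow_of_exponent_ge (by norm_num) (by norm_num) hlam1.le
      have h8 : 0 ≤ r ^ lam := Real.rpow_nonneg (by linarith) _
      nlinarith
    linarith

end

end Pool.Agent.Lib.MP_fc0bf6_an
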