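import Mathlib
import Pool.Agent.Lib.MP_fc0bf6_an.Final

set_option autoImplicit false

namespace Pool.Agent.Lib.MP_fc0bf6_an

open Filter Topology ValueDistribution Real MeasureTheory

/-- The multiplicity of the pole of `f` at `z` (zero when `z` is no pole). -/
noncomputable def poleMult (f : ℂ → ℂ) (z : ℂ) : ℕ := (-(meromorphicOrderAt f z).untop₀).toNat

/-- `n(t, f)`: the number of poles of `f` in `|z| ≤ t`, counted with multiplicity. -/
noncomputable def nPoles (f : ℂ → ℂ) (t : ℝ) : ℕ := ∑ᶠ (z : ℂ) (_ : ‖z‖ ≤ t), poleMult f z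

/-- `N(r, f) = ∫_0^r (n(t, f) - n(0, f)) / t dt + n(0, f) log r`. -/
noncomputable def intCount (f : ℂ → ℂ) (r : ℝ) : ℝ :=
  (∫ t in (0 : ℝ)..r, ((nPoles f t : ℝ) - (nPoles f 0 : ℝ)) / t) +
    (nPoles f 0 : ℝ) * Real.log r

/-- the pole divisor and the multiplicities -/
theorem negPart_divisor_apply {f : ℂ → ℂ} (hf : Meromorphic f) (z : ℂ) :
    ((MeromorphicOn.divisor f Set.univ)⁻ z : ℤ) = (poleMult f z : ℤ) := by
  rw [Function.locallyFinsuppWithin.negPart_apply,
    MeromorphicOn.divisor_apply hf.meromorphicOn (Set.mem_univ z), poleMult]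
  rw [negPart_def]
  rcases le_total 0 (-(meromorphicOrderAt f z).untop₀) with h | h
  · rw [sup_eq_left.2 h, Int.toNat_of_nonneg h]
  · rw [sup_eq_right.2 h, Int.toNat_of_nonpos h]; rfl

theorem finite_poles {f : ℂ → ℂ} (hf : Meromorphic f) (r : ℝ) :
    {z : ℂ | ‖z‖ ≤ r ∧ poleMult f z ≠ 0}.Finite := by
  have h := (Function.locallyFinsuppWithin.toClosedBall r
    ((MeromorphicOn.divisor f Set.univ)⁻)).finiteSupport (isCompact_closedBall 0 |r|)
  refine h.subset ?_
  rintro z ⟨hz1, hz2⟩
  have hz : z ∈ Metric.closedBall (0 : ℂ) |r| := by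
    rw [mem_closedBall_zero_iff]; exact hz1.trans (le_abs_self r)
  rw [Function.mem_support, Function.locallyFinsuppWithin.toClosedBall_eval_within _ hz,
    negPart_divisor_apply hf]
  exact_mod_cast hz2

theorem nPoles_eq {f : ℂ → ℂ} (hf : Meromorphic f) {r t : ℝ} (ht : t ≤ r) :
    (nPoles f t : ℝ) = ∑ z ∈ (finite_poles hf r).toFinset,
      if ‖z‖ ≤ t then (poleMult f z : ℝ) else 0 := by
  have h1 : nPoles f t = ∑ z ∈ (finite_poles hf r).toFinset,
      if ‖z‖ ≤ t then poleMult f z else 0 := by
    unfold nPoles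
    rw [finsum_eq_sum_of_support_subset (s := (finite_poles hf r).toFinset)]
    · apply Finset.sum_congr rfl
      intro z _
      by_cases hz : ‖z‖ ≤ t
      · simp [hz]
      · simp [hz]
    · intro z hz
      rw [Function.mem_support] at hz
      by_cases h : ‖z‖ ≤ t
      · simp only [h, finsum_true] at hz
        simp only [Set.Finite.coe_toFinset]
        exact ⟨h.trans ht, hz⟩
      · simp [h] at hz
  rw [h1]
  push_cast
  apply Finset.sum_congr rfl
  intro z _
  split_ifs <;> simp

/-- one pole -/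
theorem int_one {a r : ℝ} (ha : 0 < a) (har : a ≤ r) :
    IntervalIntegrable (fun t : ℝ => (if a ≤ t then (1 : ℝ) else 0) / t) volume 0 r ∧
    ∫ t in (0 : ℝ)..r, (if a ≤ t then (1 : ℝ) else 0) / t = Real.log (r * a⁻¹) := by
  have hr : 0 < r := ha.trans_le har
  have e1 : Set.EqOn (fun t : ℝ => (if a ≤ t then (1 : ℝ) else 0) / t) (fun _ => (0 : ℝ))
      (Set.Ioo 0 a) := by
    intro t ht
    simp [not_le.2 ht.2]
  have i1 : IntervalIntegrable (fun t : ℝ => (if a ≤ t then (1 : ℝ) else 0) / t) volume 0 a := by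
    apply (intervalIntegrable_const (c := (0 : ℝ)) (a := 0) (b := a) (μ := volume)).congr_ae
    rw [Set.uIoc_of_le ha.le, ← restrict_Ioo_eq_restrict_Ioc]
    filter_upwards [ae_restrict_mem measurableSet_Ioo] with t ht
    exact (e1 ht).symm
  have e2 : Set.EqOn (fun t : ℝ => (if a ≤ t then (1 : ℝ) else 0) / t) (fun t => t⁻¹)
      (Set.uIcc a r) := by
    intro t ht
    rw [Set.uIcc_of_le har] at ht
    simp [ht.1]
  have i3 : IntervalIntegrable (fun t : ℝ => t⁻¹) volume a r := by
    rw [intervalIntegrable_inv_iff]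
    right
    rw [Set.uIcc_of_le har]
    intro h
    exact absurd h.1 (not_le.2 ha)
  have i2 : IntervalIntegrable (fun t : ℝ => (if a ≤ t then (1 : ℝ) else 0) / t) volume a r := by
    apply i3.congr
    intro t ht
    exact (e2 (Set.uIoc_subset_uIcc ht)).symm
  refine ⟨i1.trans i2, ?_⟩
  rw [← intervalIntegral.integral_add_adjacent_intervals i1 i2,
    intervalIntegral.integral_congr e2, integral_inv_of_pos ha hr]
  have h0 : ∫ t in (0 : ℝ)..a, (if a ≤ t then (1 : ℝ) else 0) / t = 0 := by
    rw [intervalIntegral.integral_of_le ha.le, ← integral_Ioc_eq_integral_Ioo.symm,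
      setIntegral_congr_fun measurableSet_Ioo e1]
    simp
  rw [h0, zero_add, div_eq_mul_inv]

theorem intCount_eq {f : ℂ → ℂ} (hf : Meromorphic f) {r : ℝ} (hr : 0 < r) :
    intCount f r = logCounting f ⊤ r := by
  set S := (finite_poles hf r).toFinset with hS
  have hmem : ∀ z ∈ S, ‖z‖ ≤ r := by
    intro z hz
    rw [hS, Set.Finite.mem_toFinset] at hz
    exact hz.1
  -- the pole at zero
  have h0 : (nPoles f 0 : ℝ) = poleMult f 0 := by
    have : nPoles f 0 = poleMult f 0 := by
      unfold nPoles
      rw [finsum_eq_single _ 0]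
      · simp
      · intro z hz
        simp [not_le.2 (norm_pos_iff.2 hz)]
    exact_mod_cast this
  -- the difference
  have hdiff : ∀ t ∈ Set.uIcc (0 : ℝ) r, ((nPoles f t : ℝ) - (nPoles f 0 : ℝ)) / t =
      ∑ z ∈ S.erase 0, (poleMult f z : ℝ) * ((if ‖z‖ ≤ t then (1 : ℝ) else 0) / t) := by
    intro t ht
    rw [Set.uIcc_of_le hr.le] at ht
    have h1 : (nPoles f t : ℝ) - (nPoles f 0 : ℝ) =
        ∑ z ∈ S.erase 0, (poleMult f z : ℝ) * (if ‖z‖ ≤ t then (1 : ℝ) else 0) := by
      rw [nPoles_eq hf ht.2, nPoles_eq hf hr.le, ← Finset.sum_sub_distrib]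
      rw [← Finset.sum_subset (Finset.erase_subset 0 S)]
      · apply Finset.sum_congr rfl
        intro z hz
        have hz0 : z ≠ 0 := Finset.ne_of_mem_erase hz
        have : ¬ ‖z‖ ≤ 0 := not_le.2 (norm_pos_iff.2 hz0)
        rw [if_neg this, sub_zero]
        split_ifs <;> simp
      · intro z hz hz2
        have hz0 : z = 0 := by
          by_contra h
          exact hz2 (Finset.mem_erase.2 ⟨h, hz⟩)
        subst hz0
        simp [ht.1]
    rw [h1, Finset.sum_div]
    apply Finset.sum_congr rfl
    intro z _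
    ring
  unfold intCount
  rw [intervalIntegral.integral_congr hdiff, intervalIntegral.integral_finsetSum]
  · -- evaluate
    have h2 : ∀ z ∈ S.erase 0, ∫ t in (0 : ℝ)..r,
        (poleMult f z : ℝ) * ((if ‖z‖ ≤ t then (1 : ℝ) else 0) / t) =
        (poleMult f z : ℝ) * Real.log (r * ‖z‖⁻¹) := by
      intro z hz
      rw [intervalIntegral.integral_const_mul,
        (int_one (norm_pos_iff.2 (Finset.ne_of_mem_erase hz))
          (hmem z (Finset.mem_of_mem_erase hz))).2]
    rw [Finset.sum_congr rfl h2]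
    rw [logCounting_top]
    simp only [Function.locallyFinsuppWithin.logCounting, AddMonoidHom.coe_mk, ZeroHom.coe_mk]
    rw [negPart_divisor_apply hf, h0]
    congr 1
    rw [finsum_eq_sum_of_support_subset (s := S.erase 0)]
    · apply Finset.sum_congr rfl
      intro z hz
      have hz' : z ∈ Metric.closedBall (0 : ℂ) |r| := by
        rw [mem_closedBall_zero_iff, abs_of_pos hr]
        exact hmem z (Finset.mem_of_mem_erase hz)
      rw [Function.locallyFinsuppWithin.toClosedBall_eval_within _ hz', negPart_divisor_apply hf]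
      rfl
    · intro z hz
      rw [Function.mem_support] at hz
      have hz1 : Function.locallyFinsuppWithin.toClosedBall r
          ((MeromorphicOn.divisor f Set.univ)⁻) z ≠ 0 := by
        intro h
        apply hz
        rw [h]
        simp
      have hz' : z ∈ Metric.closedBall (0 : ℂ) |r| := by
        by_contra h
        exact hz1 (Function.locallyFinsuppWithin.apply_eq_zero_of_notMem _ h)
      have hz0 : z ≠ 0 := by
        rintro rfl
        apply hz
        simp
      rw [Function.locallyFinsuppWithin.toClosedBall_eval_within _ hz',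
        negPart_divisor_apply hf] at hz1
      rw [mem_closedBall_zero_iff, abs_of_pos hr] at hz'
      rw [Finset.mem_coe, Finset.mem_erase, hS, Set.Finite.mem_toFinset]
      exact ⟨hz0, hz', by exact_mod_cast hz1⟩
  · intro z hz
    exact ((int_one (norm_pos_iff.2 (Finset.ne_of_mem_erase hz))
          (hmem z (Finset.mem_of_mem_erase hz))).1).const_mul _

end Pool.Agent.Lib.MP_fc0bf6_an
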