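import Mathlib
import Pool.Agent.Lib.MP_fc0bf6_an.LitN

set_option autoImplicit false

namespace Pool.Agent.Lib.MP_fc0bf6_an

open Filter Topology ValueDistribution Real MeasureTheory
open scoped ENNReal

/-- The modulus of `f` at `z`, with the value `∞` at the poles. -/
noncomputable def extModulus (f : ℂ → ℂ) (z : ℂ) : ℝ≥0∞ := if poleMult f z = 0 then ‖f z‖ₑ else ⊤

/-- `m_0(r, f)`: the infimum of the modulus over `|z| = r`. -/
noncomputable def minMod (f : ℂ → ℂ) (r : ℝ) : ℝ≥0∞ := ⨅ z ∈ Metric.sphere (0 : ℂ) r, extModulus f z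

/-- `M(r, f)`: the supremum of the modulus over `|z| = r`. -/
noncomputable def maxMod (f : ℂ → ℂ) (r : ℝ) : ℝ≥0∞ := ⨆ z ∈ Metric.sphere (0 : ℂ) r, extModulus f z

/-- `μ(r) = log M(r, f)`. -/
noncomputable def logMax (f : ℂ → ℂ) (r : ℝ) : EReal := ENNReal.log (maxMod f r)

section

variable {q : ℝ}

theorem GG_zero_iff (hq : 4 < q) {z : ℂ} (h : GG q z = 0) :
    ∃ k : ℕ, z ^ 2 = -((q ^ k : ℝ) : ℂ) := by
  by_contra hcon
  push Not at hcon
  have hq0 : 0 < q := by linarith
  apply absurd h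
  have hfac : ∀ k : ℕ, 1 + z ^ 2 * (((q ^ k)⁻¹ : ℝ) : ℂ) ≠ 0 := by
    intro k h0
    apply hcon k
    have hk : ((q ^ k : ℝ) : ℂ) ≠ 0 := by
      rw [Complex.ofReal_ne_zero]; positivity
    have h1 : z ^ 2 * (((q ^ k)⁻¹ : ℝ) : ℂ) = -1 := by linear_combination h0
    rw [Complex.ofReal_inv] at h1
    field_simp at h1
    rw [h1]
    try ring
  unfold GG IP
  have h1 : (fun k => (1 + z ^ 2 * (((q ^ k)⁻¹ : ℝ) : ℂ)) ^ (2 ^ (k + 1))) =
      fun k => 1 + ((1 + z ^ 2 * (((q ^ k)⁻¹ : ℝ) : ℂ)) ^ (2 ^ (k + 1)) - 1) := by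
    ext k; ring
  rw [h1]
  apply tprod_one_add_ne_zero_of_summable
  · intro k
    rw [add_sub_cancel]
    exact pow_ne_zero _ (hfac k)
  · refine Summable.of_nonneg_of_le (fun k => norm_nonneg _)
      (fun k => norm_term_le (n := fun k => 2 ^ (k + 1)) (nn1 hq) (summable1 hq)
        (le_refl ‖z ^ 2‖) k) ?_
    exact (summable1 hq).mul_right _

theorem HH_zero_iff (hq : 4 < q) {z : ℂ} (h : HH q z = 0) :
    ∃ k : ℕ, z ^ 4 = -((q ^ k : ℝ) : ℂ) ^ 2 := by
  by_contra hcon
  push Not at hcon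
  have hq0 : 0 < q := by linarith
  apply absurd h
  have hfac : ∀ k : ℕ, 1 + z ^ 4 * ((((q ^ k)⁻¹) ^ 2 : ℝ) : ℂ) ≠ 0 := by
    intro k h0
    apply hcon k
    have hk : ((q ^ k : ℝ) : ℂ) ≠ 0 := by
      rw [Complex.ofReal_ne_zero]; positivity
    have h1 : z ^ 4 * ((((q ^ k)⁻¹) ^ 2 : ℝ) : ℂ) = -1 := by linear_combination h0
    rw [Complex.ofReal_pow, Complex.ofReal_inv] at h1
    field_simp at h1
    rw [h1]
    try ring
  unfold HH IP
  have h1 : (fun k => (1 + z ^ 4 * ((((q ^ k)⁻¹) ^ 2 : ℝ) : ℂ)) ^ (2 ^ k)) =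
      fun k => 1 + ((1 + z ^ 4 * ((((q ^ k)⁻¹) ^ 2 : ℝ) : ℂ)) ^ (2 ^ k) - 1) := by
    ext k; ring
  rw [h1]
  apply tprod_one_add_ne_zero_of_summable
  · intro k
    rw [add_sub_cancel]
    exact pow_ne_zero _ (hfac k)
  · refine Summable.of_nonneg_of_le (fun k => norm_nonneg _)
      (fun k => norm_term_le (n := fun k => 2 ^ k) (nn2 q) (summable2 hq) (le_refl ‖z ^ 4‖) k) ?_
    exact (summable2 hq).mul_right _

/-- no common zeros -/
theorem no_common (hq : 4 < q) {z : ℂ} (h : HH q z = 0) : GG q z ≠ 0 := by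
  intro h2
  obtain ⟨j, hj⟩ := GG_zero_iff hq h2
  obtain ⟨k, hk⟩ := HH_zero_iff hq h
  have h3 : ((q ^ j : ℝ) : ℂ) ^ 2 = -((q ^ k : ℝ) : ℂ) ^ 2 := by
    rw [← hk, show z ^ 4 = (z ^ 2) ^ 2 by ring, hj]; ring
  have h4 : (q ^ j : ℝ) ^ 2 = -(q ^ k : ℝ) ^ 2 := by exact_mod_cast h3
  have hq0 : 0 < q := by linarith
  have h5 : 0 < (q ^ j : ℝ) ^ 2 := by positivity
  have h6 : 0 < (q ^ k : ℝ) ^ 2 := by positivity
  linarith

theorem analyticAt_FF (hq : 4 < q) {z : ℂ} (h : HH q z ≠ 0) : AnalyticAt ℂ (FF q) z :=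
  ((differentiable_GG hq).analyticAt z).div ((differentiable_HH hq).analyticAt z) h

theorem poleMult_of_ne (hq : 4 < q) {z : ℂ} (h : HH q z ≠ 0) : poleMult (FF q) z = 0 := by
  unfold poleMult
  rw [Int.toNat_eq_zero]
  have h1 := (analyticAt_FF hq h).meromorphicOrderAt_nonneg
  have h2 : 0 ≤ (meromorphicOrderAt (FF q) z).untop₀ := WithTop.untop₀_nonneg.2 h1
  linarith

theorem order_neg (hq : 4 < q) {z : ℂ} (h : HH q z = 0) : meromorphicOrderAt (FF q) z < 0 := by
  rw [FF_eq, meromorphicOrderAt_mul ((differentiable_GG hq).analyticAt z).meromorphicAt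
    ((differentiable_HH hq).analyticAt z).meromorphicAt.inv]
  have h1 : meromorphicOrderAt (GG q) z = 0 := by
    have := ((differentiable_GG hq).analyticAt z)
    rw [this.meromorphicOrderAt_eq, this.analyticOrderAt_eq_zero.2 (no_common hq h)]
    rfl
  have h2 : meromorphicOrderAt (HH q)⁻¹ z < 0 := by
    rw [meromorphicOrderAt_inv]
    have ha := (differentiable_HH hq).analyticAt z
    have h3 : meromorphicOrderAt (HH q) z ≠ ⊤ :=
      order_ne_top (differentiable_HH hq) (by rw [HH_zero]; exact one_ne_zero) z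
    have h4 : 0 < meromorphicOrderAt (HH q) z := by
      have h5 : 0 ≤ meromorphicOrderAt (HH q) z := ha.meromorphicOrderAt_nonneg
      refine lt_of_le_of_ne h5 ?_
      intro h6
      have h7 : analyticOrderAt (HH q) z = 0 := by
        rw [ha.meromorphicOrderAt_eq] at h6
        rcases h8 : analyticOrderAt (HH q) z with _ | m
        · rw [h8] at h6; exact absurd h6 (by decide)
        · rw [h8] at h6
          have h9 : ((m : ℤ) : WithTop ℤ) = ((0 : ℤ) : WithTop ℤ) := h6.symm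
          have h10 : (m : ℤ) = 0 := by exact_mod_cast h9
          have h11 : m = 0 := by exact_mod_cast h10
          rw [h11]; rfl
      exact (ha.analyticOrderAt_eq_zero.1 h7) h
    lift meromorphicOrderAt (HH q) z to ℤ using h3 with m hm
    have h5 : 0 < m := by exact_mod_cast h4
    have h6 : (-(m : ℤ)) < 0 := by linarith
    exact_mod_cast h6
  rw [h1, zero_add]
  exact h2

theorem poleMult_of_eq (hq : 4 < q) {z : ℂ} (h : HH q z = 0) : poleMult (FF q) z ≠ 0 := by
  unfold poleMult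
  have h1 := order_neg hq h
  have h2 : meromorphicOrderAt (FF q) z ≠ ⊤ := ne_top_of_lt h1
  lift meromorphicOrderAt (FF q) z to ℤ using h2 with m hm
  have h3 : m < 0 := by exact_mod_cast h1
  rw [WithTop.untop₀_coe]
  intro h4
  rw [Int.toNat_eq_zero] at h4
  linarith

theorem normalForm_FF (hq : 4 < q) : MeromorphicNFOn (FF q) Set.univ := by
  intro z _
  rw [meromorphicNFAt_iff_analyticAt_or]
  by_cases h : HH q z = 0
  · right
    exact ⟨meromorphic_FF hq z, order_neg hq h, by rw [FF, h, div_zero]⟩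
  · left
    exact analyticAt_FF hq h

/-- the exceptional circles carry a zero and a pole -/
theorem bad_circle (hq : 4 < q) {r : ℝ} (hr : 0 ≤ r) {k : ℕ} (hk : r ^ 2 = q ^ k) :
    minMod (FF q) r = 0 ∧ maxMod (FF q) r = ⊤ := by
  have hq0 : 0 < q := by linarith
  constructor
  · -- the point i r
    have hn : Complex.I * (r : ℂ) ∈ Metric.sphere (0 : ℂ) r := by
      rw [mem_sphere_zero_iff_norm, norm_mul, Complex.norm_I, one_mul, Complex.norm_real,
        Real.norm_of_nonneg hr]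
    have hG : GG q (Complex.I * (r : ℂ)) = 0 := by
      by_contra h
      have := factor_ne_zero (nn1 hq) (summable1 hq) (fun k => by positivity) h k
      apply this
      rw [mul_pow, Complex.I_sq, ← Complex.ofReal_pow, hk]
      have hk2 : ((q ^ k : ℝ) : ℂ) ≠ 0 := by rw [Complex.ofReal_ne_zero]; positivity
      rw [Complex.ofReal_inv]
      field_simp
      ring
    have hH : HH q (Complex.I * (r : ℂ)) ≠ 0 := fun h => no_common hq h hG
    have hv : extModulus (FF q) (Complex.I * (r : ℂ)) = 0 := by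
      unfold extModulus
      rw [if_pos (poleMult_of_ne hq hH), FF, hG, zero_div]
      simp
    unfold minMod
    refine le_antisymm ?_ bot_le
    calc (⨅ z ∈ Metric.sphere (0 : ℂ) r, extModulus (FF q) z) ≤
        extModulus (FF q) (Complex.I * (r : ℂ)) := iInf₂_le _ hn
      _ = 0 := hv
  · -- the point with argument pi / 4
    set w : ℂ := (r : ℂ) * Complex.exp ((π / 4 : ℝ) * Complex.I) with hw
    have hn : w ∈ Metric.sphere (0 : ℂ) r := by
      rw [mem_sphere_zero_iff_norm, hw, norm_mul, Complex.norm_exp_ofReal_mul_I, mul_one,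
        Complex.norm_real, Real.norm_of_nonneg hr]
    have hw4 : w ^ 4 = -((q ^ k : ℝ) : ℂ) ^ 2 := by
      rw [hw, mul_pow, ← Complex.exp_nat_mul]
      have e1 : ((4 : ℕ) : ℂ) * (((π / 4 : ℝ) : ℂ) * Complex.I) = π * Complex.I := by
        push_cast; ring
      rw [e1, Complex.exp_pi_mul_I, ← hk]
      push_cast
      ring
    have hH : HH q w = 0 := by
      by_contra h
      have := factor_ne_zero (nn2 q) (summable2 hq) (fun k => by positivity) h k
      apply this
      rw [hw4]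
      have hk2 : ((q ^ k : ℝ) : ℂ) ≠ 0 := by rw [Complex.ofReal_ne_zero]; positivity
      generalize q ^ k = x at hk2 ⊢
      push_cast
      field_simp
      ring
    have hv : extModulus (FF q) w = ⊤ := by
      unfold extModulus
      rw [if_neg (poleMult_of_eq hq hH)]
    unfold maxMod
    refine le_antisymm le_top ?_
    calc ⊤ = extModulus (FF q) w := hv.symm
      _ ≤ _ := le_iSup₂ (f := fun z (_ : z ∈ Metric.sphere (0 : ℂ) r) => extModulus (FF q) z) w hn

/-- the good circles -/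
theorem good_circle (hq : 4 < q) {r : ℝ} (hk : ∀ k : ℕ, r ^ 2 ≠ q ^ k) :
    ∀ z : ℂ, ‖z‖ = r → AnalyticAt ℂ (FF q) z ∧ FF q z ≠ 0 := by
  intro z hz
  have hH : HH q z ≠ 0 := HH_ne_zero_circle hq (by rw [hz]; exact hk)
  refine ⟨analyticAt_FF hq hH, ?_⟩
  rw [FF]
  apply div_ne_zero _ hH
  intro h
  obtain ⟨k, hk2⟩ := GG_zero_iff hq h
  apply hk k
  have h2 := congrArg norm hk2
  have hq0 : 0 < q := by linarith
  rw [norm_pow, hz, norm_neg, Complex.norm_real, Real.norm_of_nonneg (by positivity)] at h2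
  exact h2

theorem good_mod (hq : 4 < q) {r : ℝ} (hr : 0 ≤ r) (hk : ∀ k : ℕ, r ^ 2 ≠ q ^ k) :
    minMod (FF q) r = ENNReal.ofReal (sInf ((fun z => ‖FF q z‖) '' Metric.sphere (0 : ℂ) r)) ∧
    maxMod (FF q) r = ENNReal.ofReal (sSup ((fun z => ‖FF q z‖) '' Metric.sphere (0 : ℂ) r)) := by
  have hg := good_circle hq hk
  set S := (fun z => ‖FF q z‖) '' Metric.sphere (0 : ℂ) r with hS
  have hcont : ContinuousOn (fun z => ‖FF q z‖) (Metric.sphere (0 : ℂ) r) := by
    intro z hz
    rw [mem_sphere_zero_iff_norm] at hz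
    exact (hg z hz).1.continuousAt.norm.continuousWithinAt
  have hcomp : IsCompact S := (isCompact_sphere 0 r).image_of_continuousOn hcont
  have hrmem : (r : ℂ) ∈ Metric.sphere (0 : ℂ) r := by
    rw [mem_sphere_zero_iff_norm, Complex.norm_real, Real.norm_of_nonneg hr]
  have hne : S.Nonempty := ⟨_, (r : ℂ), hrmem, rfl⟩
  obtain ⟨z1, hz1, hM⟩ := hcomp.sSup_mem hne
  obtain ⟨z2, hz2, hm⟩ := hcomp.sInf_mem hne
  have hmod : ∀ z ∈ Metric.sphere (0 : ℂ) r, extModulus (FF q) z = ENNReal.ofReal ‖FF q z‖ := by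
    intro z hz
    have hH : HH q z ≠ 0 := by
      apply HH_ne_zero_circle hq
      rw [mem_sphere_zero_iff_norm] at hz
      rw [hz]; exact hk
    unfold extModulus
    rw [if_pos (poleMult_of_ne hq hH), ofReal_norm]
  constructor
  · unfold minMod
    apply le_antisymm
    · calc (⨅ z ∈ Metric.sphere (0 : ℂ) r, extModulus (FF q) z) ≤ extModulus (FF q) z2 :=
          iInf₂_le _ hz2
        _ = ENNReal.ofReal (sInf S) := by rw [hmod z2 hz2, ← hm]
    · apply le_iInf₂
      intro z hz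
      rw [hmod z hz]
      exact ENNReal.ofReal_le_ofReal (csInf_le hcomp.bddBelow ⟨z, hz, rfl⟩)
  · unfold maxMod
    apply le_antisymm
    · apply iSup₂_le
      intro z hz
      rw [hmod z hz]
      exact ENNReal.ofReal_le_ofReal (le_csSup hcomp.bddAbove ⟨z, hz, rfl⟩)
    · calc ENNReal.ofReal (sSup S) = extModulus (FF q) z1 := by rw [hmod z1 hz1, ← hM]
        _ ≤ _ := le_iSup₂ (f := fun z (_ : z ∈ Metric.sphere (0 : ℂ) r) =>
            extModulus (FF q) z) z1 hz1

/-- everything about one circle -/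
theorem circle_facts (hq : 4 < q) (hq2 : q ≤ 22 / 5) {lam r : ℝ} (hlam : 0 < lam)
    (hqd : q = (2 : ℝ) ^ (2 / lam)) (hr : 1 ≤ r) :
    (((7 / 200 * r ^ lam : ℝ) : EReal) ≤ logMax (FF q) r) ∧
    (¬ (minMod (FF q) r = 0 ∧ maxMod (FF q) r = ⊤) →
      ENNReal.log (minMod (FF q) r) / logMax (FF q) r ≤ ((-(6 / 5) : ℝ) : EReal)) ∧
    ((intCount (FF q) r : ℝ) : EReal) / logMax (FF q) r ≤ ((343 : ℝ) : EReal) := by
  have hr0 : 0 < r := by linarith
  by_cases hk : ∃ k : ℕ, r ^ 2 = q ^ k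
  · obtain ⟨k, hk⟩ := hk
    obtain ⟨h1, h2⟩ := bad_circle hq hr0.le hk
    have h3 : logMax (FF q) r = ⊤ := by rw [logMax, h2]; simp
    refine ⟨by rw [h3]; exact le_top, fun h => absurd ⟨h1, h2⟩ h, ?_⟩
    rw [h3, EReal.div_top]
    exact_mod_cast (by norm_num : (0 : ℝ) ≤ 343)
  · push Not at hk
    have hg := good_circle hq hk
    obtain ⟨e1, e2⟩ := good_mod hq hr0.le hk
    obtain ⟨n, h1, h2⟩ := exists_nat_pow_near (one_le_pow₀ hr (n := 2)) (by linarith : 1 < q)
    obtain ⟨c1, c2⟩ := core hq hq2 hr hg h1 h2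
    obtain ⟨d1, d2⟩ := ratio_bounds hq hq2 hr hg
    set S := (fun z => ‖FF q z‖) '' Metric.sphere (0 : ℂ) r with hS
    have hpos : 0 < Real.log (sSup S) := lt_of_lt_of_le (by positivity) c1
    have hSpos : 0 < sSup S := by
      by_contra h
      push Not at h
      have hcont : ContinuousOn (fun z => ‖FF q z‖) (Metric.sphere (0 : ℂ) r) := by
        intro z hz
        rw [mem_sphere_zero_iff_norm] at hz
        exact (hg z hz).1.continuousAt.norm.continuousWithinAt
      have hcomp : IsCompact S := (isCompact_sphere 0 r).image_of_continuousOn hcont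
      have hrmem : (r : ℂ) ∈ Metric.sphere (0 : ℂ) r := by
        rw [mem_sphere_zero_iff_norm, Complex.norm_real, Real.norm_of_nonneg hr0.le]
      have h3 : ‖FF q (r : ℂ)‖ ≤ sSup S := le_csSup hcomp.bddAbove ⟨_, hrmem, rfl⟩
      have h4 : 0 < ‖FF q (r : ℂ)‖ := by
        apply norm_pos_iff.2
        apply (hg _ _).2
        rw [mem_sphere_zero_iff_norm] at hrmem
        exact hrmem
      linarith
    have hIpos : 0 < sInf S := by
      have hcont : ContinuousOn (fun z => ‖FF q z‖) (Metric.sphere (0 : ℂ) r) := by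
        intro z hz
        rw [mem_sphere_zero_iff_norm] at hz
        exact (hg z hz).1.continuousAt.norm.continuousWithinAt
      have hcomp : IsCompact S := (isCompact_sphere 0 r).image_of_continuousOn hcont
      have hrmem : (r : ℂ) ∈ Metric.sphere (0 : ℂ) r := by
        rw [mem_sphere_zero_iff_norm, Complex.norm_real, Real.norm_of_nonneg hr0.le]
      have hne : S.Nonempty := ⟨_, (r : ℂ), hrmem, rfl⟩
      obtain ⟨z2, hz2, hm⟩ := hcomp.sInf_mem hne
      rw [← hm]
      rw [mem_sphere_zero_iff_norm] at hz2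
      exact norm_pos_iff.2 (hg z2 hz2).2
    have l1 : logMax (FF q) r = ((Real.log (sSup S) : ℝ) : EReal) := by
      rw [logMax, e2, ENNReal.log_ofReal_of_pos hSpos]
    have l2 : ENNReal.log (minMod (FF q) r) = ((Real.log (sInf S) : ℝ) : EReal) := by
      rw [e1, ENNReal.log_ofReal_of_pos hIpos]
    rw [l1, l2, intCount_eq (meromorphic_FF hq) hr0, ← EReal.coe_div, ← EReal.coe_div]
    refine ⟨?_, fun _ => ?_, ?_⟩
    · rw [EReal.coe_le_coe_iff]
      have h8 := le_two_pow hlam hqd (by linarith : (0 : ℝ) ≤ r) h2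
      linarith
    · rw [EReal.coe_le_coe_iff]; exact d1
    · rw [EReal.coe_le_coe_iff]; exact d2

end

end Pool.Agent.Lib.MP_fc0bf6_an
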